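import Mathlib

set_option autoImplicit false

/-!
The ring of integers of a cubic field and integral binary cubic forms: every cubic field is
generated by a root of an integral cubic polynomial whose discriminant is the discriminant of the
field.
-/

namespace Pool.Agent.X124.CB

open NumberField Module

variable {K : Type} [Field K] [NumberField K]

/-- the integers in the ring of integers -/
abbrev NN (K : Type) [Field K] [NumberField K] : Submodule ℤ (𝓞 K) := Submodule.span ℤ {(1 : 𝓞 K)}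

lemma mem_NN {x : 𝓞 K} : x ∈ NN K ↔ ∃ n : ℤ, x = (n : 𝓞 K) := by
  rw [Submodule.mem_span_singleton]
  constructor
  · rintro ⟨n, hn⟩
    refine ⟨n, ?_⟩
    rw [← hn]; simp
  · rintro ⟨n, hn⟩
    exact ⟨n, by rw [hn]; simp⟩

/-- an algebraic integer that is a rational number is an integer -/
lemma int_of_rat {x : 𝓞 K} {t : ℚ} (h : (x : K) = algebraMap ℚ K t) : ∃ n : ℤ, x = (n : 𝓞 K) := by
  have h1 : IsIntegral ℤ t := by
    have h2 : IsIntegral ℤ (algebraMap ℚ K t) := by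
      rw [← h]; exact x.isIntegral_coe
    exact (isIntegral_algebraMap_iff (algebraMap ℚ K).injective).1 h2
  obtain ⟨n, hn⟩ := IsIntegrallyClosed.isIntegral_iff.1 h1
  refine ⟨n, ?_⟩
  apply RingOfIntegers.ext
  rw [h, ← hn]
  simp

lemma tf : Module.IsTorsionFree ℤ (𝓞 K ⧸ NN K) := by
  apply Module.IsTorsionFree.of_smul_eq_zero
  intro n m h
  by_cases hn : n = 0
  · exact Or.inl hn
  right
  obtain ⟨x, rfl⟩ := Submodule.Quotient.mk_surjective _ m
  rw [← Submodule.Quotient.mk_smul, Submodule.Quotient.mk_eq_zero, mem_NN] at h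
  rw [Submodule.Quotient.mk_eq_zero, mem_NN]
  obtain ⟨k, hk⟩ := h
  have hnK : (n : K) ≠ 0 := by exact_mod_cast hn
  apply int_of_rat (t := (k : ℚ) / n)
  have h1 : ((n • x : 𝓞 K) : K) = ((k : 𝓞 K) : K) := by rw [hk]
  rw [zsmul_eq_mul] at h1
  push_cast at h1
  rw [map_div₀]
  simp only [map_intCast]
  field_simp
  rw [mul_comm]
  simpa using h1

lemma rank_quot (h3 : finrank ℚ K = 3) : finrank ℤ (𝓞 K ⧸ NN K) = 2 := by
  have h1 := Submodule.finrank_quotient_add_finrank (NN K)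
  rw [RingOfIntegers.rank, h3] at h1
  have h2 : finrank ℤ (NN K) = 1 := by
    have h := (LinearEquiv.toSpanNonzeroSingleton ℤ (𝓞 K) 1 one_ne_zero).finrank_eq
    rw [finrank_self] at h
    exact h.symm
  omega

/-- lifts of a basis of the quotient give a basis -/
lemma exists_basis (b : Basis (Fin 2) ℤ (𝓞 K ⧸ NN K)) (ω θ : 𝓞 K)
    (hω : (Submodule.Quotient.mk ω : 𝓞 K ⧸ NN K) = b 0)
    (hθ : (Submodule.Quotient.mk θ : 𝓞 K ⧸ NN K) = b 1) :
    ∃ B : Basis (Fin 3) ℤ (𝓞 K), B 0 = 1 ∧ B 1 = ω ∧ B 2 = θ := by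
  have hli : LinearIndependent ℤ ![(1 : 𝓞 K), ω, θ] := by
    rw [Fintype.linearIndependent_iff]
    intro g hg
    rw [Fin.sum_univ_three] at hg
    simp only [Matrix.cons_val_zero, Matrix.cons_val_one, Matrix.cons_val] at hg
    have h1 : (Submodule.Quotient.mk (g 0 • (1 : 𝓞 K) + g 1 • ω + g 2 • θ) : 𝓞 K ⧸ NN K) = 0 := by
      rw [hg]; rfl
    rw [Submodule.Quotient.mk_add, Submodule.Quotient.mk_add, Submodule.Quotient.mk_smul,
      Submodule.Quotient.mk_smul, Submodule.Quotient.mk_smul, hω, hθ] at h1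
    have h2 : (Submodule.Quotient.mk (1 : 𝓞 K) : 𝓞 K ⧸ NN K) = 0 := by
      rw [Submodule.Quotient.mk_eq_zero]
      exact Submodule.mem_span_singleton_self _
    rw [h2, smul_zero, zero_add] at h1
    have h3 := Fintype.linearIndependent_iff.1 b.linearIndependent ![g 1, g 2] (by
      rw [Fin.sum_univ_two]; simpa using h1)
    have e1 : g 1 = 0 := h3 0
    have e2 : g 2 = 0 := h3 1
    rw [e1, e2] at hg
    simp at hg
    intro i
    fin_cases i
    · exact hg
    · exact e1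
    · exact e2
  have hsp : ⊤ ≤ Submodule.span ℤ (Set.range ![(1 : 𝓞 K), ω, θ]) := by
    intro x _
    have h1 := b.sum_repr (Submodule.Quotient.mk x)
    rw [Fin.sum_univ_two, ← hω, ← hθ, ← Submodule.Quotient.mk_smul, ← Submodule.Quotient.mk_smul,
      ← Submodule.Quotient.mk_add, eq_comm, Submodule.Quotient.eq, mem_NN] at h1
    obtain ⟨n, hn⟩ := h1
    set c1 := b.repr (Submodule.Quotient.mk x) 0
    set c2 := b.repr (Submodule.Quotient.mk x) 1
    have hx : x = n • (1 : 𝓞 K) + c1 • ω + c2 • θ := by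
      have : x = (n : 𝓞 K) + (c1 • ω + c2 • θ) := by rw [← hn]; ring
      rw [this]; simp [add_assoc]
    rw [hx]
    refine add_mem (add_mem ?_ ?_) ?_
    · exact Submodule.smul_mem _ _ (Submodule.subset_span ⟨0, rfl⟩)
    · exact Submodule.smul_mem _ _ (Submodule.subset_span ⟨1, rfl⟩)
    · exact Submodule.smul_mem _ _ (Submodule.subset_span ⟨2, rfl⟩)
  refine ⟨Basis.mk hli hsp, ?_, ?_, ?_⟩ <;> rw [Basis.mk_apply] <;> rfl

/-- the discriminant of a binary cubic form -/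
def disc3 (a b c d : ℤ) : ℤ :=
  b ^ 2 * c ^ 2 - 4 * a * c ^ 3 - 4 * b ^ 3 * d - 27 * a ^ 2 * d ^ 2 + 18 * a * b * c * d

/-- **The field of a cubic field is generated by a root of a form with its discriminant.** -/
theorem exists_form (h3 : finrank ℚ K = 3) : ∃ (a b c d : ℤ) (γ : K),
    (a : K) * γ ^ 3 + b * γ ^ 2 + c * γ + d = 0 ∧ (∀ t : ℚ, γ ≠ algebraMap ℚ K t) ∧
    discr K = disc3 a b c d := by
  have := tf (K := K)
  have : Module.Free ℤ (𝓞 K ⧸ NN K) := Module.free_of_finite_type_torsion_free'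
  let b := Module.finBasisOfFinrankEq ℤ (𝓞 K ⧸ NN K) (rank_quot h3)
  obtain ⟨ω₀, hω₀⟩ := Submodule.Quotient.mk_surjective _ (b 0)
  obtain ⟨θ₀, hθ₀⟩ := Submodule.Quotient.mk_surjective _ (b 1)
  obtain ⟨B₀, B00, B01, B02⟩ := exists_basis b ω₀ θ₀ hω₀ hθ₀
  -- normalization
  obtain ⟨p2, q2, r2, hωθ⟩ : ∃ p2 q2 r2 : ℤ, ω₀ * θ₀ = p2 + q2 * ω₀ + r2 * θ₀ := by
    have h := B₀.sum_repr (ω₀ * θ₀)
    rw [Fin.sum_univ_three, B00, B01, B02] at h
    refine ⟨B₀.repr (ω₀ * θ₀) 0, B₀.repr (ω₀ * θ₀) 1, B₀.repr (ω₀ * θ₀) 2, ?_⟩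
    conv_lhs => rw [← h]
    simp
  set ω : 𝓞 K := ω₀ - r2 with hωd
  set θ : 𝓞 K := θ₀ - q2 with hθd
  have hint : ∀ n : ℤ, (Submodule.Quotient.mk ((n : 𝓞 K)) : 𝓞 K ⧸ NN K) = 0 := by
    intro n
    rw [Submodule.Quotient.mk_eq_zero, mem_NN]
    exact ⟨n, rfl⟩
  obtain ⟨B, B0, B1, B2⟩ := exists_basis b ω θ
    (by rw [hωd, Submodule.Quotient.mk_sub, hint, sub_zero, hω₀])
    (by rw [hθd, Submodule.Quotient.mk_sub, hint, sub_zero, hθ₀])
  obtain ⟨n, hn⟩ : ∃ n : ℤ, ω * θ = n := by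
    refine ⟨p2 + r2 * q2, ?_⟩
    push_cast
    rw [hωd, hθd]
    linear_combination hωθ
  have hex : ∀ x : 𝓞 K, ∃ s t u : ℤ, x = s + t * ω + u * θ := by
    intro x
    have h := B.sum_repr x
    rw [Fin.sum_univ_three, B0, B1, B2] at h
    refine ⟨B.repr x 0, B.repr x 1, B.repr x 2, ?_⟩
    conv_lhs => rw [← h]
    simp
  have hrepr : ∀ s t u : ℤ, B.repr ((s : 𝓞 K) + t * ω + u * θ) 0 = s ∧
      B.repr ((s : 𝓞 K) + t * ω + u * θ) 1 = t ∧ B.repr ((s : 𝓞 K) + t * ω + u * θ) 2 = u := by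
    intro s t u
    have h : (s : 𝓞 K) + t * ω + u * θ = s • B 0 + t • B 1 + u • B 2 := by
      rw [B0, B1, B2]; simp
    rw [h]
    simp only [map_add, map_smul, Basis.repr_self, Finsupp.add_apply, Finsupp.smul_apply,
      Finsupp.single_apply]
    refine ⟨?_, ?_, ?_⟩ <;> simp
  have huniq : ∀ s t u s' t' u' : ℤ, (s : 𝓞 K) + t * ω + u * θ = s' + t' * ω + u' * θ →
      s = s' ∧ t = t' ∧ u = u' := by
    intro s t u s' t' u' h
    have h1 := hrepr s t u
    have h2 := hrepr s' t' u'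
    rw [h] at h1
    exact ⟨h1.1.symm.trans h2.1, h1.2.1.symm.trans h2.2.1, h1.2.2.symm.trans h2.2.2⟩
  obtain ⟨p, q, r, hω2⟩ := hex (ω * ω)
  obtain ⟨p', q', r', hθ2⟩ := hex (θ * θ)
  -- associativity
  have as1 := huniq (q * n + r * p') (r * q') (p + r * r') 0 n 0 (by
    push_cast
    linear_combination (-θ) * hω2 - (r : 𝓞 K) * hθ2 + ω * hn - (q : 𝓞 K) * hn)
  have as2 := huniq (q' * p + r' * n) (p' + q' * q) (q' * r) 0 0 n (by
    push_cast
    linear_combination (-ω) * hθ2 - (q' : 𝓞 K) * hω2 + θ * hn - (r' : 𝓞 K) * hn)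
  obtain ⟨-, hnq, hpr⟩ := as1
  obtain ⟨-, hpq, -⟩ := as2
  have hp : p = -(r * r') := by linarith
  have hp' : p' = -(q * q') := by linarith
  have hn' : n = r * q' := hnq.symm
  -- `r` does not vanish
  have hω0 : ω ≠ 0 := by rw [← B1]; exact B.ne_zero 1
  have hθ0 : θ ≠ 0 := by rw [← B2]; exact B.ne_zero 2
  have hr0 : r ≠ 0 := by
    intro h
    rw [hn', h, zero_mul, Int.cast_zero] at hn
    rcases mul_eq_zero.1 hn with h1 | h1
    · exact hω0 h1
    · exact hθ0 h1
  have hrK : (r : K) ≠ 0 := by exact_mod_cast hr0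
  refine ⟨r, -q, r', -q', (ω : K) / r, ?_, ?_, ?_⟩
  · -- the equation
    have e1 : ω ^ 3 - q * ω ^ 2 + r * r' * ω - r ^ 2 * q' = 0 := by
      rw [hp] at hω2
      rw [hn'] at hn
      push_cast at hω2 hn
      linear_combination ω * hω2 + (r : 𝓞 K) * hn
    have e2 := congrArg (fun x : 𝓞 K => (x : K)) e1
    simp only [map_sub, map_add, map_mul, map_pow, map_intCast, map_zero] at e2
    have e3 : ((r : K)) ^ 2 * ((r : K) * ((ω : K) / r) ^ 3 + ((-q : ℤ) : K) * ((ω : K) / r) ^ 2 +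
        (r' : K) * ((ω : K) / r) + ((-q' : ℤ) : K)) = 0 := by
      rw [← e2]
      push_cast
      field_simp
      ring
    rcases mul_eq_zero.1 e3 with h | h
    · exact (pow_ne_zero 2 hrK h).elim
    · exact h
  · -- irrationality
    intro t ht
    have h1 : (ω : K) = algebraMap ℚ K (r * t) := by
      rw [map_mul, ← ht]
      simp
      field_simp
    obtain ⟨m, hm⟩ := int_of_rat h1
    have h2 := huniq m 0 0 0 1 0 (by rw [← hm]; simp)
    exact absurd h2.2.1 (by norm_num)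
  · -- the discriminant
    rw [← NumberField.discr_eq_discr K B, Algebra.discr_def, Matrix.det_fin_three]
    have htr : ∀ x : 𝓞 K, Algebra.trace ℤ (𝓞 K) x =
        B.repr (x * B 0) 0 + B.repr (x * B 1) 1 + B.repr (x * B 2) 2 := by
      intro x
      rw [Algebra.trace_eq_matrix_trace B, Matrix.trace, Fin.sum_univ_three]
      simp only [Matrix.diag_apply, Algebra.leftMulMatrix_eq_repr_mul]
    have t1 : Algebra.trace ℤ (𝓞 K) 1 = 3 := by
      rw [htr]
      simp
    have tω : Algebra.trace ℤ (𝓞 K) ω = q := by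
      rw [htr, B0, B1, B2, mul_one, hω2, hn]
      have e1 := (hrepr 0 1 0).1
      have e2 := (hrepr p q r).2.1
      have e3 := (hrepr n 0 0).2.2
      simp only [Int.cast_zero, Int.cast_one, zero_mul, one_mul, zero_add, add_zero] at e1 e3
      rw [e1, e2, e3]
      ring
    have tθ : Algebra.trace ℤ (𝓞 K) θ = r' := by
      rw [htr, B0, B1, B2, mul_one, mul_comm θ ω, hn, hθ2]
      have e1 := (hrepr 0 0 1).1
      have e2 := (hrepr n 0 0).2.1
      have e3 := (hrepr p' q' r').2.2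
      simp only [Int.cast_zero, Int.cast_one, zero_mul, one_mul, zero_add, add_zero] at e1 e2
      rw [e1, e2, e3]
      ring
    have tlin : ∀ s t u : ℤ, Algebra.trace ℤ (𝓞 K) ((s : 𝓞 K) + t * ω + u * θ) =
        3 * s + t * q + u * r' := by
      intro s t u
      have : (s : 𝓞 K) + t * ω + u * θ = s • (1 : 𝓞 K) + t • ω + u • θ := by simp
      rw [this, map_add, map_add, map_smul, map_smul, map_smul, t1, tω, tθ]
      simp only [smul_eq_mul]
      ring
    have tωω : Algebra.trace ℤ (𝓞 K) (ω * ω) = 3 * p + q * q + r * r' := by rw [hω2]; exact tlin _ _ _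
    have tθθ : Algebra.trace ℤ (𝓞 K) (θ * θ) = 3 * p' + q' * q + r' * r' := by
      rw [hθ2]; exact tlin _ _ _
    have tωθ : Algebra.trace ℤ (𝓞 K) (ω * θ) = 3 * n := by
      rw [hn]
      have := tlin n 0 0
      simpa using this
    simp only [Algebra.traceMatrix_apply, Algebra.traceForm_apply, B0, B1, B2, one_mul, mul_one,
      mul_comm θ ω, t1, tω, tθ, tωω, tθθ, tωθ]
    rw [hp, hp', hn']
    unfold disc3
    ring

end Pool.Agent.X124.CB
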