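import Mathlib
import Pool.Agent.X124.CB.Form

set_option autoImplicit false

/-!
Reduction of binary cubic forms with one real root: every cubic field with a non-real element is
generated by a root in the fundamental domain of an integral form with the discriminant of the
field.
-/

namespace Pool.Agent.X124.CB

open Module IntermediateField

/-- the coefficients of `F (s X - q Y, - r X + p Y)` -/
def ta (a b c d r s : ℤ) : ℤ := a * s ^ 3 - b * r * s ^ 2 + c * s * r ^ 2 - d * r ^ 3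
def tb (a b c d p q r s : ℤ) : ℤ := -3 * a * s ^ 2 * q + b * (p * s ^ 2 + 2 * s * q * r) +
  c * (-2 * r * p * s - q * r ^ 2) + 3 * d * r ^ 2 * p
def tc (a b c d p q r s : ℤ) : ℤ := 3 * a * s * q ^ 2 + b * (-2 * s * q * p - r * q ^ 2) +
  c * (s * p ^ 2 + 2 * q * r * p) - 3 * d * r * p ^ 2
def td (a b c d p q : ℤ) : ℤ := -a * q ^ 3 + b * p * q ^ 2 - c * q * p ^ 2 + d * p ^ 3

theorem disc_t (a b c d p q r s : ℤ) : disc3 (ta a b c d r s) (tb a b c d p q r s)
    (tc a b c d p q r s) (td a b c d p q) = (p * s - q * r) ^ 6 * disc3 a b c d := by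
  unfold disc3 ta tb tc td
  ring

lemma root_t (a b c d p q r s : ℤ) (z : ℂ) (hz : (r : ℂ) * z + s ≠ 0)
    (h : (a : ℂ) * z ^ 3 + b * z ^ 2 + c * z + d = 0) :
    (ta a b c d r s : ℂ) * ((p * z + q) / (r * z + s)) ^ 3 +
      (tb a b c d p q r s : ℂ) * ((p * z + q) / (r * z + s)) ^ 2 +
      (tc a b c d p q r s : ℂ) * ((p * z + q) / (r * z + s)) + (td a b c d p q : ℂ) = 0 := by
  have key : (ta a b c d r s : ℂ) * (p * z + q) ^ 3 +
      (tb a b c d p q r s : ℂ) * (p * z + q) ^ 2 * (r * z + s) +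
      (tc a b c d p q r s : ℂ) * (p * z + q) * (r * z + s) ^ 2 +
      (td a b c d p q : ℂ) * (r * z + s) ^ 3 =
      (p * s - q * r) ^ 3 * ((a : ℂ) * z ^ 3 + b * z ^ 2 + c * z + d) := by
    unfold ta tb tc td
    push_cast
    ring
  rw [h, mul_zero] at key
  have e : (ta a b c d r s : ℂ) * ((p * z + q) / (r * z + s)) ^ 3 +
      (tb a b c d p q r s : ℂ) * ((p * z + q) / (r * z + s)) ^ 2 +
      (tc a b c d p q r s : ℂ) * ((p * z + q) / (r * z + s)) + (td a b c d p q : ℂ) =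
      ((ta a b c d r s : ℂ) * (p * z + q) ^ 3 +
      (tb a b c d p q r s : ℂ) * (p * z + q) ^ 2 * (r * z + s) +
      (tc a b c d p q r s : ℂ) * (p * z + q) * (r * z + s) ^ 2 +
      (td a b c d p q : ℂ) * (r * z + s) ^ 3) / (r * z + s) ^ 3 := by
    generalize (ta a b c d r s : ℂ) = A
    generalize (tb a b c d p q r s : ℂ) = B
    generalize (tc a b c d p q r s : ℂ) = C
    generalize (td a b c d p q : ℂ) = D
    generalize (p : ℂ) * z + q = X
    generalize (r : ℂ) * z + s = Y at hz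
    field_simp
  rw [e, key, zero_div]

/-- reduction of a complex number of the upper half plane -/
lemma exists_moeb (z : ℂ) (hz : 0 < z.im) : ∃ p q r s : ℤ, p * s - q * r = 1 ∧
    (r : ℂ) * z + s ≠ 0 ∧ 0 < (((p : ℂ) * z + q) / (r * z + s)).im ∧
    |(((p : ℂ) * z + q) / (r * z + s)).re| ≤ 1 / 2 ∧
    1 ≤ Complex.normSq (((p : ℂ) * z + q) / (r * z + s)) := by
  obtain ⟨g, hg⟩ := ModularGroup.exists_smul_mem_fd (⟨z, hz⟩ : UpperHalfPlane)
  have h1 := UpperHalfPlane.coe_specialLinearGroup_apply g (⟨z, hz⟩ : UpperHalfPlane)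
  simp only [eq_intCast, Complex.ofReal_intCast] at h1
  have hdet := g.det_coe
  rw [Matrix.det_fin_two] at hdet
  have him := (g • (⟨z, hz⟩ : UpperHalfPlane)).im_pos
  have hfd1 : 1 ≤ Complex.normSq ((g • (⟨z, hz⟩ : UpperHalfPlane) : UpperHalfPlane) : ℂ) := hg.1
  have hfd2 : |((g • (⟨z, hz⟩ : UpperHalfPlane) : UpperHalfPlane) : ℂ).re| ≤ 1 / 2 := hg.2
  have him' : 0 < ((g • (⟨z, hz⟩ : UpperHalfPlane) : UpperHalfPlane) : ℂ).im := him
  rw [h1] at hfd1 hfd2 him'
  refine ⟨g 0 0, g 0 1, g 1 0, g 1 1, hdet, ?_, him', hfd2, hfd1⟩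
  intro h0
  rw [show ((g 1 0 : ℤ) : ℂ) * z + ((g 1 1 : ℤ) : ℂ) = 0 from h0, div_zero] at him'
  exact lt_irrefl _ him'

/-- a non-real element generates a cubic field -/
lemma adj_eq {K : IntermediateField ℚ ℂ} (h3 : finrank ℚ K = 3) {ρ : ℂ} (hρ : ρ ∈ K)
    (him : ρ.im ≠ 0) : ℚ⟮ρ⟯ = K := by
  have hle : ℚ⟮ρ⟯ ≤ K := by
    rw [IntermediateField.adjoin_simple_le_iff]; exact hρ
  have hfd : FiniteDimensional ℚ K := Module.finite_of_finrank_pos (by omega)
  have hdvd := IntermediateField.finrank_dvd_of_le_right hle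
  rw [h3, Nat.dvd_prime Nat.prime_three] at hdvd
  apply IntermediateField.eq_of_le_of_finrank_eq hle
  rcases hdvd with h | h
  · exfalso
    rw [IntermediateField.finrank_eq_one_iff, IntermediateField.adjoin_simple_eq_bot_iff,
      IntermediateField.mem_bot] at h
    obtain ⟨t, ht⟩ := h
    apply him
    rw [← ht]
    simp
  · rw [h, h3]

lemma quad_zero {b c d : ℚ} (h : Polynomial.C b * Polynomial.X ^ 2 +
    Polynomial.C c * Polynomial.X + Polynomial.C d = 0) : b = 0 ∧ c = 0 ∧ d = 0 := by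
  have e2 := congrArg (fun q => Polynomial.coeff q 2) h
  have e1 := congrArg (fun q => Polynomial.coeff q 1) h
  have e0 := congrArg (fun q => Polynomial.coeff q 0) h
  simp [Polynomial.coeff_X, Polynomial.coeff_C] at e0 e1 e2
  exact ⟨e2, e1, e0⟩

/-- a generator of a cubic field is no root of a quadratic polynomial -/
lemma no_quad {ρ : ℂ} (h3 : finrank ℚ ℚ⟮ρ⟯ = 3) {b c d : ℤ}
    (h : (b : ℂ) * ρ ^ 2 + c * ρ + d = 0) : b = 0 ∧ c = 0 ∧ d = 0 := by
  open Polynomial in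
  by_contra hne
  set p : ℚ[X] := C (b : ℚ) * X ^ 2 + C (c : ℚ) * X + C (d : ℚ) with hp
  have hp0 : p ≠ 0 := by
    intro h0
    apply hne
    obtain ⟨e2, e1, e0⟩ := quad_zero h0
    exact ⟨by exact_mod_cast e2, by exact_mod_cast e1, by exact_mod_cast e0⟩
  have hr : Polynomial.aeval ρ p = 0 := by
    rw [hp]
    simp only [map_add, map_mul, Polynomial.aeval_C, Polynomial.aeval_X, map_pow, eq_ratCast,
      Rat.cast_intCast]
    exact h
  have hint : IsIntegral ℚ ρ := by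
    rw [← isAlgebraic_iff_isIntegral]
    exact ⟨p, hp0, hr⟩
  have h1 := IntermediateField.adjoin.finrank hint
  rw [h3] at h1
  have h2 := Polynomial.natDegree_le_of_dvd (minpoly.dvd ℚ ρ hr) hp0
  have h4 : p.natDegree ≤ 2 := Polynomial.natDegree_quadratic_le
  omega

/-- reduced data for a field -/
def IsRed (K : IntermediateField ℚ ℂ) (a b c d : ℤ) (ρ : ℂ) : Prop :=
  0 < ρ.im ∧ |ρ.re| ≤ 1 / 2 ∧ 1 ≤ Complex.normSq ρ ∧
    (a : ℂ) * ρ ^ 3 + b * ρ ^ 2 + c * ρ + d = 0 ∧ ℚ⟮ρ⟯ = K ∧ a ≠ 0 ∧ d ≠ 0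

theorem exists_isRed (K : IntermediateField ℚ ℂ) [NumberField K] (h3 : finrank ℚ K = 3)
    (hK : ∃ x ∈ K, x.im ≠ 0) : ∃ (a b c d : ℤ) (ρ : ℂ), IsRed K a b c d ρ ∧
      NumberField.discr K = disc3 a b c d := by
  obtain ⟨a, b, c, d, γ, hroot, hirr, hdisc⟩ := exists_form (K := K) h3
  have hroot' : (a : ℂ) * (γ : ℂ) ^ 3 + b * (γ : ℂ) ^ 2 + c * (γ : ℂ) + d = 0 := by
    have := congrArg (fun x : K => (x : ℂ)) hroot
    push_cast at this
    exact this
  -- the generator is not real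
  have hadj : ℚ⟮(γ : ℂ)⟯ = K := by
    have hle : ℚ⟮(γ : ℂ)⟯ ≤ K := by
      rw [IntermediateField.adjoin_simple_le_iff]; exact γ.2
    have hdvd := IntermediateField.finrank_dvd_of_le_right hle
    rw [h3, Nat.dvd_prime Nat.prime_three] at hdvd
    apply IntermediateField.eq_of_le_of_finrank_eq hle
    rcases hdvd with h | h
    · exfalso
      rw [IntermediateField.finrank_eq_one_iff, IntermediateField.adjoin_simple_eq_bot_iff,
        IntermediateField.mem_bot] at h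
      obtain ⟨t, ht⟩ := h
      apply hirr t
      apply Subtype.ext
      rw [← ht]
      rfl
    · rw [h, h3]
  have him : (γ : ℂ).im ≠ 0 := by
    intro h0
    obtain ⟨x, hx, hxi⟩ := hK
    apply hxi
    rw [← hadj] at hx
    have hre : ((γ : ℂ).re : ℂ) = γ := by
      apply Complex.ext <;> simp [h0]
    have h1 : ∀ y ∈ ℚ⟮(γ : ℂ)⟯, y.im = 0 := by
      intro y hy
      induction hy using IntermediateField.adjoin_induction with
      | mem z hz =>
        rw [Set.mem_singleton_iff] at hz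
        rw [hz]; exact h0
      | algebraMap z => simp
      | add z w _ _ hz hw => rw [Complex.add_im, hz, hw, add_zero]
      | mul z w _ _ hz hw => rw [Complex.mul_im, hz, hw]; ring
      | inv z _ hz => rw [Complex.inv_im, hz]; simp
    exact h1 x hx
  -- we may assume that the imaginary part is positive
  obtain ⟨a1, b1, c1, d1, γ1, hγ1, hroot1, hdisc1, him1⟩ : ∃ (a1 b1 c1 d1 : ℤ) (γ1 : ℂ),
      γ1 ∈ K ∧ (a1 : ℂ) * γ1 ^ 3 + b1 * γ1 ^ 2 + c1 * γ1 + d1 = 0 ∧
      NumberField.discr K = disc3 a1 b1 c1 d1 ∧ 0 < γ1.im := by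
    rcases lt_or_gt_of_ne him with h | h
    · refine ⟨-a, b, -c, d, -γ, neg_mem γ.2, ?_, ?_, by simp [h]⟩
      · push_cast
        linear_combination hroot'
      · rw [hdisc]; unfold disc3; ring
    · exact ⟨a, b, c, d, γ, γ.2, hroot', hdisc, h⟩
  obtain ⟨p, q, r, s, hdet, hne, hi, hre, hN⟩ := exists_moeb γ1 him1
  set ρ : ℂ := ((p : ℂ) * γ1 + q) / (r * γ1 + s) with hρ
  have hmemI : ∀ n : ℤ, (n : ℂ) ∈ K := fun n => by
    have := K.algebraMap_mem (n : ℚ)
    simpa using this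
  have hρK : ρ ∈ K := by
    rw [hρ]
    exact div_mem (add_mem (mul_mem (hmemI p) hγ1) (hmemI q))
      (add_mem (mul_mem (hmemI r) hγ1) (hmemI s))
  have hadjρ : ℚ⟮ρ⟯ = K := adj_eq h3 hρK hi.ne'
  have hfin : finrank ℚ ℚ⟮ρ⟯ = 3 := by rw [hadjρ]; exact h3
  have hrt := root_t a1 b1 c1 d1 p q r s γ1 hne hroot1
  rw [← hρ] at hrt
  have hdt : NumberField.discr K = disc3 (ta a1 b1 c1 d1 r s) (tb a1 b1 c1 d1 p q r s)
      (tc a1 b1 c1 d1 p q r s) (td a1 b1 c1 d1 p q) := by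
    rw [disc_t, hdet, hdisc1]; ring
  have hD0 : NumberField.discr K ≠ 0 := NumberField.discr_ne_zero K
  refine ⟨_, _, _, _, ρ, ⟨hi, hre, hN, hrt, hadjρ, ?_, ?_⟩, hdt⟩
  · intro h0
    rw [h0, Int.cast_zero, zero_mul, zero_add] at hrt
    obtain ⟨e1, e2, e3⟩ := no_quad hfin hrt
    apply hD0
    rw [hdt, h0, e1, e2, e3]
    unfold disc3
    ring
  · intro h0
    have hρ0 : ρ ≠ 0 := by
      intro h; rw [h] at hi; simp at hi
    rw [h0, Int.cast_zero, add_zero] at hrt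
    have e : ρ * ((ta a1 b1 c1 d1 r s : ℂ) * ρ ^ 2 + (tb a1 b1 c1 d1 p q r s : ℂ) * ρ +
      (tc a1 b1 c1 d1 p q r s : ℂ)) = 0 := by rw [← hrt]; ring
    rcases mul_eq_zero.1 e with h | h
    · exact hρ0 h
    obtain ⟨e1, e2, e3⟩ := no_quad hfin h
    apply hD0
    rw [hdt, h0, e1, e2, e3]
    unfold disc3
    ring

end Pool.Agent.X124.CB
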