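import Mathlib
import Pool.Agent.X124.CB.Red

set_option autoImplicit false

/-!
The sum of the inverse discriminants of the complex cubic fields.
-/

namespace Pool.Agent.X124.CB

open Module IntermediateField Finset

/-- the relations between the coefficients and the root -/
lemma red_rel {a b c d : ℤ} {ρ : ℂ} (him : ρ.im ≠ 0)
    (h : (a : ℂ) * ρ ^ 3 + b * ρ ^ 2 + c * ρ + d = 0) :
    (c : ℝ) = a * Complex.normSq ρ - 2 * ρ.re * (b + 2 * a * ρ.re) ∧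
    (d : ℝ) = (b + 2 * a * ρ.re) * Complex.normSq ρ ∧
    (disc3 a b c d : ℝ) = -(4 * ρ.im ^ 2 * ((b + 2 * a * ρ.re) ^ 2 +
      2 * a * ρ.re * (b + 2 * a * ρ.re) + a ^ 2 * Complex.normSq ρ) ^ 2) := by
  obtain ⟨x, y⟩ := ρ
  simp only at him
  have hre := congrArg Complex.re h
  have hi := congrArg Complex.im h
  simp [pow_succ] at hre hi
  have hc : (c : ℝ) = a * (x ^ 2 + y ^ 2) - 2 * x * (b + 2 * a * x) := by
    have e : y * ((c : ℝ) - (a * (x ^ 2 + y ^ 2) - 2 * x * (b + 2 * a * x))) = 0 := by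
      linear_combination hi
    rcases mul_eq_zero.1 e with h | h
    · exact (him h).elim
    · linarith
  have hd : (d : ℝ) = (b + 2 * a * x) * (x ^ 2 + y ^ 2) := by
    rw [hc] at hre
    linear_combination hre
  have hN : Complex.normSq ⟨x, y⟩ = x ^ 2 + y ^ 2 := by
    rw [Complex.normSq_apply]; ring
  rw [hN]
  refine ⟨hc, hd, ?_⟩
  unfold disc3
  push_cast
  rw [hc, hd]
  ring

/-- the bounds for reduced forms -/
lemma red_bounds {a b c d : ℤ} {ρ : ℂ} (him : 0 < ρ.im) (hre : |ρ.re| ≤ 1 / 2)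
    (hN : 1 ≤ Complex.normSq ρ) (h : (a : ℂ) * ρ ^ 3 + b * ρ ^ 2 + c * ρ + d = 0) :
    (a : ℝ) ^ 4 * Complex.normSq ρ ^ 3 ≤ ((disc3 a b c d).natAbs : ℝ) ∧
    ((b : ℝ) + 2 * a * ρ.re) ^ 4 * Complex.normSq ρ ≤ ((disc3 a b c d).natAbs : ℝ) := by
  obtain ⟨-, -, h3⟩ := red_rel him.ne' h
  set e : ℝ := b + 2 * a * ρ.re with he
  have hN' : Complex.normSq ρ = ρ.re ^ 2 + ρ.im ^ 2 := by
    rw [Complex.normSq_apply]; ring
  set N : ℝ := Complex.normSq ρ with hNd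
  set x : ℝ := ρ.re with hx
  set y : ℝ := ρ.im with hy
  set R : ℝ := e ^ 2 + 2 * a * x * e + a ^ 2 * N with hR
  have habs : ((disc3 a b c d).natAbs : ℝ) = 4 * y ^ 2 * R ^ 2 := by
    rw [Nat.cast_natAbs, Int.cast_abs, h3, abs_neg, abs_of_nonneg (by positivity)]
  have hx2 : x ^ 2 ≤ 1 / 4 := by
    rw [← sq_abs]
    calc |x| ^ 2 ≤ (1 / 2) ^ 2 := pow_le_pow_left₀ (abs_nonneg _) hre 2
      _ = _ := by norm_num
  have hy2 : 3 / 4 * N ≤ y ^ 2 := by linarith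
  have hN0 : 0 < N := by linarith
  have hR1 : 3 / 4 * (a : ℝ) ^ 2 * N ≤ R := by
    have e1 : R = (e + a * x) ^ 2 + a ^ 2 * y ^ 2 := by
      rw [hR, hN']; ring
    rw [e1]
    have e2 := mul_le_mul_of_nonneg_left hy2 (sq_nonneg (a : ℝ))
    have e3 := sq_nonneg (e + a * x)
    linarith
  have hR2 : 3 / 4 * e ^ 2 ≤ R := by
    have e1 : R * N = (a * N + x * e) ^ 2 + e ^ 2 * y ^ 2 := by
      rw [hR]
      have : e ^ 2 * y ^ 2 = e ^ 2 * (N - x ^ 2) := by rw [hN']; ring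
      rw [this]; ring
    have e2 := mul_le_mul_of_nonneg_left hy2 (sq_nonneg e)
    have e3 := sq_nonneg (a * N + x * e)
    have e4 : 3 / 4 * e ^ 2 * N ≤ R * N := by
      rw [e1]; linarith
    exact le_of_mul_le_mul_right e4 hN0
  have hR0 : 0 ≤ R := le_trans (by positivity) hR2
  rw [habs]
  have s1 : (3 / 4 * (a : ℝ) ^ 2 * N) ^ 2 ≤ R ^ 2 := pow_le_pow_left₀ (by positivity) hR1 2
  have s2 : (3 / 4 * e ^ 2) ^ 2 ≤ R ^ 2 := pow_le_pow_left₀ (by positivity) hR2 2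
  constructor
  · calc (a : ℝ) ^ 4 * N ^ 3 ≤ 4 * (3 / 4 * N) * (3 / 4 * (a : ℝ) ^ 2 * N) ^ 2 := by
          have : 0 ≤ (a : ℝ) ^ 4 * N ^ 3 := by positivity
          nlinarith
      _ ≤ 4 * y ^ 2 * R ^ 2 := mul_le_mul (by linarith) s1 (by positivity) (by positivity)
  · calc e ^ 4 * N ≤ 4 * (3 / 4 * N) * (3 / 4 * e ^ 2) ^ 2 := by
          have : 0 ≤ e ^ 4 * N := by positivity
          nlinarith
      _ ≤ 4 * y ^ 2 * R ^ 2 := mul_le_mul (by linarith) s2 (by positivity) (by positivity)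

lemma le_of_four {u v : ℝ} (hv : 0 ≤ v) (h : u ^ 4 ≤ v ^ 4) : u ≤ v := by
  by_contra hcon
  push Not at hcon
  have := pow_lt_pow_left₀ hcon hv (n := 4) (by norm_num)
  linarith

/-- the box of the coefficients -/
lemma red_box {a b c d : ℤ} {ρ : ℂ} (him : 0 < ρ.im) (hre : |ρ.re| ≤ 1 / 2)
    (hN : 1 ≤ Complex.normSq ρ) (h : (a : ℂ) * ρ ^ 3 + b * ρ ^ 2 + c * ρ + d = 0) {i j : ℕ}
    (hi : (disc3 a b c d).natAbs ≤ 16 ^ (i + 1)) (hj : (16 : ℝ) ^ j ≤ Complex.normSq ρ)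
    (hj' : Complex.normSq ρ ≤ (16 : ℝ) ^ (j + 1)) :
    8 ^ j * |a| ≤ 2 ^ (i + 1) ∧ 2 ^ j * |b| ≤ 2 ^ (i + 2) ∧ |c| ≤ 2 ^ (i + j + 3) ∧
      |d| ≤ 2 ^ (i + 4) * 8 ^ j := by
  obtain ⟨h1, h2⟩ := red_bounds him hre hN h
  obtain ⟨r1, r2, -⟩ := red_rel him.ne' h
  set e : ℝ := b + 2 * a * ρ.re with he
  set N : ℝ := Complex.normSq ρ with hNd
  have hN0 : 0 < N := by linarith
  have hi' : ((disc3 a b c d).natAbs : ℝ) ≤ 16 ^ (i + 1) := by exact_mod_cast hi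
  have h16 : ∀ k : ℕ, ((2 : ℝ) ^ k) ^ 4 = 16 ^ k := fun k => by
    rw [← pow_mul, mul_comm, pow_mul]; norm_num
  have h8 : ∀ k : ℕ, ((8 : ℝ) ^ k) ^ 4 = (16 ^ k) ^ 3 := fun k => by
    rw [← pow_mul, ← pow_mul, mul_comm k 4, mul_comm k 3, pow_mul, pow_mul]; norm_num
  have b1 : (8 : ℝ) ^ j * |(a : ℝ)| ≤ 2 ^ (i + 1) := by
    apply le_of_four (by positivity)
    rw [mul_pow, h8, h16]
    have e1 : |(a : ℝ)| ^ 4 = (a : ℝ) ^ 4 := by
      rw [show (4 : ℕ) = 2 * 2 by norm_num, pow_mul, sq_abs, pow_mul]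
    rw [e1]
    calc ((16 : ℝ) ^ j) ^ 3 * (a : ℝ) ^ 4 ≤ N ^ 3 * (a : ℝ) ^ 4 :=
          mul_le_mul_of_nonneg_right (pow_le_pow_left₀ (by positivity) hj 3) (by positivity)
      _ ≤ _ := by linarith
  have e4 : |e| ^ 4 = e ^ 4 := by
    rw [show (4 : ℕ) = 2 * 2 by norm_num, pow_mul, sq_abs, pow_mul]
  have a4 : |(a : ℝ)| ^ 4 = (a : ℝ) ^ 4 := by
    rw [show (4 : ℕ) = 2 * 2 by norm_num, pow_mul, sq_abs, pow_mul]
  have b2 : (2 : ℝ) ^ j * |e| ≤ 2 ^ (i + 1) := by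
    apply le_of_four (by positivity)
    rw [mul_pow, h16, h16, e4]
    calc (16 : ℝ) ^ j * e ^ 4 ≤ N * e ^ 4 := mul_le_mul_of_nonneg_right hj (by positivity)
      _ ≤ _ := by linarith
  have b3 : |(a : ℝ)| * N ≤ 2 ^ (i + j + 2) := by
    apply le_of_four (by positivity)
    rw [mul_pow, h16, a4]
    calc (a : ℝ) ^ 4 * N ^ 4 = ((a : ℝ) ^ 4 * N ^ 3) * N := by ring
      _ ≤ 16 ^ (i + 1) * 16 ^ (j + 1) := mul_le_mul (h1.trans hi') hj' hN0.le (by positivity)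
      _ = _ := by ring
  have b4 : |e| * N ≤ 2 ^ (i + 4) * 8 ^ j := by
    apply le_of_four (by positivity)
    rw [mul_pow, mul_pow, h16, h8, e4]
    calc e ^ 4 * N ^ 4 = (e ^ 4 * N) * N ^ 3 := by ring
      _ ≤ 16 ^ (i + 1) * (16 ^ (j + 1)) ^ 3 :=
          mul_le_mul (h2.trans hi') (pow_le_pow_left₀ hN0.le hj' 3) (by positivity) (by positivity)
      _ = _ := by ring
  have p1 : (1 : ℝ) ≤ 2 ^ j := one_le_pow₀ (by norm_num)
  have p2 : (2 : ℝ) ^ j ≤ 8 ^ j := pow_le_pow_left₀ (by norm_num) (by norm_num) j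
  have hea : |(b : ℝ)| ≤ |e| + |(a : ℝ)| := by
    have e1 : (b : ℝ) = e - 2 * a * ρ.re := by rw [he]; ring
    rw [e1]
    have e2 : |2 * (a : ℝ) * ρ.re| ≤ |(a : ℝ)| := by
      rw [abs_mul, abs_mul, abs_of_pos (by norm_num : (0 : ℝ) < 2)]
      nlinarith [abs_nonneg (a : ℝ)]
    have := abs_sub e (2 * (a : ℝ) * ρ.re)
    linarith
  refine ⟨?_, ?_, ?_, ?_⟩
  · have : ((8 ^ j * |a| : ℤ) : ℝ) ≤ ((2 ^ (i + 1) : ℤ) : ℝ) := by push_cast; exact b1
    exact_mod_cast this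
  · have : ((2 ^ j * |b| : ℤ) : ℝ) ≤ ((2 ^ (i + 2) : ℤ) : ℝ) := by
      push_cast
      calc (2 : ℝ) ^ j * |(b : ℝ)| ≤ 2 ^ j * |e| + 2 ^ j * |(a : ℝ)| := by
            rw [← mul_add]; exact mul_le_mul_of_nonneg_left hea (by positivity)
        _ ≤ 2 ^ (i + 1) + 8 ^ j * |(a : ℝ)| :=
            add_le_add b2 (mul_le_mul_of_nonneg_right p2 (abs_nonneg _))
        _ ≤ 2 ^ (i + 1) + 2 ^ (i + 1) := by linarith
        _ = _ := by ring
    exact_mod_cast this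
  · have : ((|c| : ℤ) : ℝ) ≤ ((2 ^ (i + j + 3) : ℤ) : ℝ) := by
      push_cast
      rw [r1]
      have e1 : |2 * ρ.re * e| ≤ |e| := by
        rw [abs_mul, abs_mul, abs_of_pos (by norm_num : (0 : ℝ) < 2)]
        nlinarith [abs_nonneg e]
      have e2 := abs_sub ((a : ℝ) * N) (2 * ρ.re * e)
      rw [abs_mul, abs_of_pos hN0] at e2
      have e3 : |e| ≤ 2 ^ (i + j + 2) := by
        have e5 : |e| ≤ 2 ^ j * |e| := by nlinarith [abs_nonneg e]
        have e6 : (2 : ℝ) ^ (i + 1) ≤ 2 ^ (i + j + 2) :=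
          pow_le_pow_right₀ (by norm_num) (by omega)
        linarith
      calc |(a : ℝ) * N - 2 * ρ.re * e| ≤ 2 ^ (i + j + 2) + 2 ^ (i + j + 2) := by linarith
        _ = _ := by ring
    exact_mod_cast this
  · have : ((|d| : ℤ) : ℝ) ≤ ((2 ^ (i + 4) * 8 ^ j : ℤ) : ℝ) := by
      push_cast
      rw [r2, abs_mul, abs_of_pos hN0]
      exact b4
    exact_mod_cast this

/-- the field is determined by the form -/
lemma red_inj {K K' : IntermediateField ℚ ℂ} {a b c d : ℤ} {ρ ρ' : ℂ}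
    (h : IsRed K a b c d ρ) (h' : IsRed K' a b c d ρ') : K = K' := by
  obtain ⟨hi, -, -, hr, hK, ha, -⟩ := h
  obtain ⟨hi', -, -, hr', hK', -, -⟩ := h'
  have : ρ' = ρ := by
    obtain ⟨e1, e2, -⟩ := red_rel hi.ne' hr
    have e1' : (c : ℂ) = a * (Complex.normSq ρ : ℂ) - 2 * (ρ.re : ℂ) * (b + 2 * a * (ρ.re : ℂ)) := by
      rw [← Complex.ofReal_intCast c, e1]; push_cast; ring
    have e2' : (d : ℂ) = (b + 2 * a * (ρ.re : ℂ)) * (Complex.normSq ρ : ℂ) := by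
      rw [← Complex.ofReal_intCast d, e2]; push_cast; ring
    have hf : (ρ' ^ 2 - 2 * (ρ.re : ℂ) * ρ' + (Complex.normSq ρ : ℂ)) *
        ((a : ℂ) * ρ' + (b + 2 * a * (ρ.re : ℂ))) = 0 := by
      rw [← hr', e1', e2']
      ring
    rcases mul_eq_zero.1 hf with h | h
    · have e3 : (ρ' - ρ) * (ρ' - (starRingEnd ℂ) ρ) = 0 := by
        rw [← h, Complex.normSq_eq_conj_mul_self]
        have e4 : (2 : ℂ) * (ρ.re : ℂ) = ρ + (starRingEnd ℂ) ρ := by
          apply Complex.ext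
          · simp; ring
          · simp
        rw [e4]
        ring
      rcases mul_eq_zero.1 e3 with h | h
      · exact sub_eq_zero.1 h
      · exfalso
        have h5 := congrArg Complex.im (sub_eq_zero.1 h)
        rw [Complex.conj_im] at h5
        linarith
    · exfalso
      have h5 := congrArg Complex.im h
      simp at h5
      rcases h5 with h5 | h5
      · exact ha h5
      · exact hi'.ne' h5
  rw [← hK, ← hK', this]

open Classical in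
/-- the absolute value of the discriminant -/
noncomputable def dK (K : IntermediateField ℚ ℂ) : ℕ :=
  if _ : NumberField K then (NumberField.discr K).natAbs else 1

lemma dK_eq (K : IntermediateField ℚ ℂ) [h : NumberField K] :
    dK K = (NumberField.discr K).natAbs := by
  unfold dK
  rw [dif_pos h]

lemma one_le_dK (K : IntermediateField ℚ ℂ) : 1 ≤ dK K := by
  unfold dK
  split_ifs with h
  · exact Int.natAbs_pos.2 (NumberField.discr_ne_zero K)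
  · exact le_rfl

lemma nf_of {K : IntermediateField ℚ ℂ} (h3 : finrank ℚ K = 3) : NumberField K := by
  have : FiniteDimensional ℚ K := Module.finite_of_finrank_pos (by omega)
  exact ⟨⟩

/-- the number of points of a box -/
lemma box_card (i j : ℕ) (ha : 8 ^ j ≤ 2 ^ (i + 1)) :
    ((Icc (-((2 ^ (i + 1) / 8 ^ j : ℕ) : ℤ)) ((2 ^ (i + 1) / 8 ^ j : ℕ) : ℤ) ×ˢ
      Icc (-((2 ^ (i + 2) / 2 ^ j : ℕ) : ℤ)) ((2 ^ (i + 2) / 2 ^ j : ℕ) : ℤ) ×ˢ
      Icc (-((2 ^ (i + j + 3) : ℕ) : ℤ)) ((2 ^ (i + j + 3) : ℕ) : ℤ) ×ˢ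
      Icc (-((2 ^ (i + 4) * 8 ^ j : ℕ) : ℤ)) ((2 ^ (i + 4) * 8 ^ j : ℕ) : ℤ)).card : ℕ) ≤
      82944 * 16 ^ i := by
  rw [card_product, card_product, card_product]
  simp only [Int.card_Icc]
  set A := 2 ^ (i + 1) / 8 ^ j with hA
  set B := 2 ^ (i + 2) / 2 ^ j with hB
  set C := 2 ^ (i + j + 3) with hC
  set D := 2 ^ (i + 4) * 8 ^ j with hD
  have h8 : 0 < 8 ^ j := by positivity
  have h2 : 0 < 2 ^ j := by positivity
  have hA1 : 1 ≤ A := by rw [hA, Nat.one_le_div_iff h8]; exact ha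
  have hB1 : 1 ≤ B := by
    rw [hB, Nat.one_le_div_iff h2]
    calc 2 ^ j ≤ 8 ^ j := Nat.pow_le_pow_left (by norm_num) j
      _ ≤ 2 ^ (i + 1) := ha
      _ ≤ 2 ^ (i + 2) := Nat.pow_le_pow_right (by norm_num) (by omega)
  have hC1 : 1 ≤ C := Nat.one_le_two_pow
  have hD1 : 1 ≤ D := by rw [hD]; exact Nat.one_le_iff_ne_zero.2 (by positivity)
  have cA : ((A : ℤ) + 1 - -(A : ℤ)).toNat = 2 * A + 1 := by omega
  have cB : ((B : ℤ) + 1 - -(B : ℤ)).toNat = 2 * B + 1 := by omega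
  have cC : ((C : ℤ) + 1 - -(C : ℤ)).toNat = 2 * C + 1 := by omega
  have cD : ((D : ℤ) + 1 - -(D : ℤ)).toNat = 2 * D + 1 := by omega
  rw [cA, cB, cC, cD]
  have e1 : A * 8 ^ j ≤ 2 ^ (i + 1) := Nat.div_mul_le_self _ _
  have e2 : B * 2 ^ j ≤ 2 ^ (i + 2) := Nat.div_mul_le_self _ _
  calc (2 * A + 1) * ((2 * B + 1) * ((2 * C + 1) * (2 * D + 1))) ≤
        (3 * A) * ((3 * B) * ((3 * C) * (3 * D))) := by gcongr <;> omega
    _ = 81 * ((A * 8 ^ j) * (B * 2 ^ j)) * (2 ^ (i + 3) * 2 ^ (i + 4)) := by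
        rw [hC, hD, show i + j + 3 = (i + 3) + j by ring, pow_add 2 (i + 3) j]
        ring
    _ ≤ 81 * (2 ^ (i + 1) * 2 ^ (i + 2)) * (2 ^ (i + 3) * 2 ^ (i + 4)) := by gcongr
    _ = 82944 * 16 ^ i := by
        have : (16 : ℕ) ^ i = 2 ^ i * 2 ^ i * 2 ^ i * 2 ^ i := by
          rw [← mul_pow, ← mul_pow, ← mul_pow]; norm_num
        rw [this]
        ring

/-- **The sum of the inverse discriminants of the complex cubic fields.** -/
theorem sum_fields (n : ℕ) (S : Finset (IntermediateField ℚ ℂ))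
    (hS : ∀ K ∈ S, finrank ℚ K = 3 ∧ (∃ x ∈ K, x.im ≠ 0) ∧ dK K ≤ 16 ^ n) :
    ∑ K ∈ S, 1 / (dK K : ℝ) ≤ 82944 * ((n : ℝ) + 1) * (n + 2) := by
  classical
  have ex : ∀ K : IntermediateField ℚ ℂ, ∃ v : ℤ × ℤ × ℤ × ℤ × ℂ, K ∈ S →
      IsRed K v.1 v.2.1 v.2.2.1 v.2.2.2.1 v.2.2.2.2 ∧
      dK K = (disc3 v.1 v.2.1 v.2.2.1 v.2.2.2.1).natAbs := by
    intro K
    by_cases hK : K ∈ S
    · obtain ⟨h3, hx, -⟩ := hS K hK
      have := nf_of h3
      obtain ⟨a, b, c, d, ρ, h1, h2⟩ := exists_isRed K h3 hx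
      exact ⟨(a, b, c, d, ρ), fun _ => ⟨h1, by rw [dK_eq, h2]⟩⟩
    · exact ⟨0, fun h => (hK h).elim⟩
  choose v hv using ex
  set g : IntermediateField ℚ ℂ → ℕ × ℕ := fun K =>
    (Nat.log 16 (dK K), Nat.log 16 ⌊Complex.normSq (v K).2.2.2.2⌋₊) with hg
  have hI : ∀ K, 16 ^ (g K).1 ≤ dK K ∧ dK K < 16 ^ ((g K).1 + 1) := by
    intro K
    exact ⟨Nat.pow_log_le_self 16 (by have := one_le_dK K; omega),
      Nat.lt_pow_succ_log_self (by norm_num) _⟩
  have hJ : ∀ K ∈ S, (16 : ℝ) ^ (g K).2 ≤ Complex.normSq (v K).2.2.2.2 ∧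
      Complex.normSq (v K).2.2.2.2 ≤ (16 : ℝ) ^ ((g K).2 + 1) := by
    intro K hK
    have h1 := (hv K hK).1.2.2.1
    have h0 : 0 ≤ Complex.normSq (v K).2.2.2.2 := Complex.normSq_nonneg _
    have h2 : ⌊Complex.normSq (v K).2.2.2.2⌋₊ ≠ 0 := by
      rw [Ne, Nat.floor_eq_zero, not_lt]; exact h1
    have h3 : 16 ^ (g K).2 ≤ ⌊Complex.normSq (v K).2.2.2.2⌋₊ := Nat.pow_log_le_self 16 h2
    have h4 : ⌊Complex.normSq (v K).2.2.2.2⌋₊ < 16 ^ ((g K).2 + 1) :=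
      Nat.lt_pow_succ_log_self (by norm_num) _
    constructor
    · have : ((16 ^ (g K).2 : ℕ) : ℝ) ≤ Complex.normSq (v K).2.2.2.2 :=
        (Nat.le_floor_iff h0).1 h3
      push_cast at this
      exact this
    · have h5 := (Nat.lt_floor_add_one (Complex.normSq (v K).2.2.2.2)).le
      have h6 : ((⌊Complex.normSq (v K).2.2.2.2⌋₊ : ℝ)) + 1 ≤ ((16 ^ ((g K).2 + 1) : ℕ) : ℝ) := by
        exact_mod_cast h4
      push_cast at h6
      linarith
  have hbox : ∀ K ∈ S, 8 ^ (g K).2 * |(v K).1| ≤ 2 ^ ((g K).1 + 1) ∧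
      2 ^ (g K).2 * |(v K).2.1| ≤ 2 ^ ((g K).1 + 2) ∧
      |(v K).2.2.1| ≤ 2 ^ ((g K).1 + (g K).2 + 3) ∧
      |(v K).2.2.2.1| ≤ 2 ^ ((g K).1 + 4) * 8 ^ (g K).2 := by
    intro K hK
    obtain ⟨⟨h1, h2, h3, h4, -⟩, h5⟩ := hv K hK
    apply red_box h1 h2 h3 h4 _ (hJ K hK).1 (hJ K hK).2
    rw [← h5]
    exact (hI K).2.le
  have h8 : ∀ K ∈ S, 8 ^ (g K).2 ≤ 2 ^ ((g K).1 + 1) := by
    intro K hK
    have h1 := (hbox K hK).1
    have h2 : 1 ≤ |(v K).1| := Int.one_le_abs (hv K hK).1.2.2.2.2.2.1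
    have h3 : (8 : ℤ) ^ (g K).2 ≤ 2 ^ ((g K).1 + 1) := by
      nlinarith [pow_pos (by norm_num : (0 : ℤ) < 8) (g K).2]
    exact_mod_cast h3
  have hmaps : ∀ K ∈ S, g K ∈ range (n + 1) ×ˢ range (n + 2) := by
    intro K hK
    have h1 : (g K).1 ≤ n := by
      have h2 : 16 ^ (g K).1 ≤ 16 ^ n := (hI K).1.trans (hS K hK).2.2
      exact (Nat.pow_le_pow_iff_right (by norm_num)).1 h2
    have h3 : (g K).2 ≤ (g K).1 + 1 := by
      have h4 : 2 ^ (g K).2 ≤ 2 ^ ((g K).1 + 1) :=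
        (Nat.pow_le_pow_left (by norm_num) _).trans (h8 K hK)
      exact (Nat.pow_le_pow_iff_right (by norm_num)).1 h4
    rw [mem_product, mem_range, mem_range]
    omega
  rw [← Finset.sum_fiberwise_of_maps_to hmaps]
  have hfib : ∀ ij ∈ range (n + 1) ×ˢ range (n + 2),
      ∑ K ∈ S.filter (fun K => g K = ij), 1 / (dK K : ℝ) ≤ 82944 := by
    intro ij _
    rcases (S.filter (fun K => g K = ij)).eq_empty_or_nonempty with h0 | ⟨K0, hK0⟩
    · rw [h0]; simp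
    rw [mem_filter] at hK0
    have ha := h8 K0 hK0.1
    rw [hK0.2] at ha
    have hcard : (S.filter (fun K => g K = ij)).card ≤ 82944 * 16 ^ ij.1 := by
      refine le_trans ?_ (box_card ij.1 ij.2 ha)
      apply Finset.card_le_card_of_injOn (fun K => ((v K).1, (v K).2.1, (v K).2.2.1, (v K).2.2.2.1))
      · intro K hK
        rw [Finset.mem_coe, mem_filter] at hK
        obtain ⟨c1, c2, c3, c4⟩ := hbox K hK.1
        rw [hK.2] at c1 c2 c3 c4
        rw [Finset.mem_coe]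
        simp only [mem_product, mem_Icc, ← abs_le]
        have q : ∀ (u : ℤ) (P Q : ℕ), 0 < Q → (Q : ℤ) * |u| ≤ P → |u| ≤ ((P / Q : ℕ) : ℤ) := by
          intro u P Q hQ h
          push_cast
          rw [Int.le_ediv_iff_mul_le (by exact_mod_cast hQ)]
          linarith
        refine ⟨q _ _ _ (by positivity) (by push_cast; exact c1),
          q _ _ _ (by positivity) (by push_cast; exact c2), by push_cast; exact c3,
          by push_cast; exact c4⟩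
      · intro K hK K' hK' h
        rw [Finset.mem_coe, mem_filter] at hK hK'
        simp only [Prod.mk.injEq] at h
        obtain ⟨q1, q2, q3, q4⟩ := h
        have r1 := (hv K hK.1).1
        have r2 := (hv K' hK'.1).1
        rw [← q1, ← q2, ← q3, ← q4] at r2
        exact red_inj r1 r2
    have h16 : (0 : ℝ) < 16 ^ ij.1 := by positivity
    calc ∑ K ∈ S.filter (fun K => g K = ij), 1 / (dK K : ℝ) ≤
          ∑ K ∈ S.filter (fun K => g K = ij), 1 / (16 : ℝ) ^ ij.1 := by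
          apply Finset.sum_le_sum
          intro K hK
          rw [mem_filter] at hK
          have h1 := (hI K).1
          rw [hK.2] at h1
          have h2 : (16 : ℝ) ^ ij.1 ≤ dK K := by exact_mod_cast h1
          exact one_div_le_one_div_of_le h16 h2
      _ = ((S.filter (fun K => g K = ij)).card : ℝ) * (1 / (16 : ℝ) ^ ij.1) := by
          rw [Finset.sum_const, nsmul_eq_mul]
      _ ≤ (82944 * 16 ^ ij.1) * (1 / (16 : ℝ) ^ ij.1) := by
          apply mul_le_mul_of_nonneg_right _ (by positivity)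
          exact_mod_cast hcard
      _ = 82944 := by field_simp
  refine (Finset.sum_le_sum hfib).trans ?_
  rw [Finset.sum_const, card_product, card_range, card_range, nsmul_eq_mul]
  push_cast
  linarith

end Pool.Agent.X124.CB
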