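import Mathlib
import Pool.Agent.X124.CB.Cnt
import Pool.Agent.X124.MC.LogSum
import Pool.Agent.W469.CV.MH

set_option autoImplicit false

/-!
Packing for the cubic numbers of one field, and the bound for the discriminant.
-/

namespace Pool.Agent.X124.CB

open Module IntermediateField Finset Polynomial Pool.Agent.H990R4.VJ NumberField Height

lemma root_bound {f : ℤ[X]} (hf : f ≠ 0) {z : ℂ} (hz : aeval z f = 0) :
    |(f.leadingCoeff : ℝ)| * max 1 ‖z‖ ≤ mm f := by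
  rw [mm_eq]
  apply mul_le_mul_of_nonneg_left _ (abs_nonneg _)
  have h0 : f.map (Int.castRingHom ℂ) ≠ 0 := by
    rwa [Ne, Polynomial.map_eq_zero_iff (RingHom.injective_int _)]
  have hmem : z ∈ (f.map (Int.castRingHom ℂ)).roots := by
    rw [mem_roots h0, IsRoot.def, eval_map]
    rw [aeval_def] at hz
    exact hz
  obtain ⟨t, ht⟩ := Multiset.exists_cons_of_mem hmem
  rw [ht, Multiset.map_cons, Multiset.prod_cons]
  have h1 : 1 ≤ (t.map fun z : ℂ => max 1 ‖z‖).prod :=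
    Multiset.one_le_prod_map fun _ _ => le_max_left _ _
  have h2 : (0 : ℝ) ≤ max 1 ‖z‖ := by positivity
  nlinarith

lemma aeval_mk {K : IntermediateField ℚ ℂ} {β : ℂ} (hβ : β ∈ K) {f : ℤ[X]}
    (h0 : aeval β f = 0) : aeval (⟨β, hβ⟩ : K) f = 0 := by
  apply Subtype.ext
  have h1 : ((aeval (⟨β, hβ⟩ : K) f : K) : ℂ) = aeval β f :=
    (Polynomial.aeval_algebraMap_apply ℂ (⟨β, hβ⟩ : K) f).symm
  rw [h1, h0]
  rfl

lemma height_le {K : IntermediateField ℚ ℂ} [NumberField K] (h3 : finrank ℚ K = 3) {β : ℂ}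
    (hβ : β ∈ K) {f : ℤ[X]} (hf : Irreducible f) (hd : f.natDegree = 3) (h0 : aeval β f = 0) :
    mulHeight₁ (⟨β, hβ⟩ : K) ≤ mm f := by
  have h2 := Pool.Agent.W469.CV.MH.t K ⟨β, hβ⟩ f hf (by omega) (aeval_mk hβ h0)
  have hm : 0 < mm f := lt_of_lt_of_le one_pos (one_le_mm hf.ne_zero)
  rw [h3, hd] at h2
  have e : ((3 : ℕ) : ℝ) * (Real.log (Pool.Agent.H813R3.Voj.mahler f) / ((3 : ℕ) : ℝ)) =
      Real.log (mm f) := by
    have : Pool.Agent.H813R3.Voj.mahler f = mm f := rfl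
    rw [this]
    push_cast
    field_simp
  rw [e] at h2
  exact (Real.log_le_log_iff (mulHeight₁_pos _) hm).1 h2

/-- **The separation.** -/
theorem sep3 {K : IntermediateField ℚ ℂ} [NumberField K] (h3 : finrank ℚ K = 3)
    (hK : ∃ x ∈ K, x.im ≠ 0) {β β' : ℂ} (hβ : β ∈ K) (hβ' : β' ∈ K) (hne : β ≠ β')
    {f f' : ℤ[X]} (hf : Irreducible f) (hd : f.natDegree = 3) (h0 : aeval β f = 0)
    (hf' : Irreducible f') (hd' : f'.natDegree = 3) (h0' : aeval β' f' = 0) :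
    1 ≤ 8 * mm f * mm f' * ‖β - β'‖ ^ 2 := by
  set γ : K := ⟨β, hβ⟩ - ⟨β', hβ'⟩ with hγ
  have hγc : (γ : ℂ) = β - β' := rfl
  have h1 : mulHeight₁ γ⁻¹ ≤ 8 * mm f * mm f' := by
    rw [mulHeight₁_inv]
    refine (mulHeight₁_sub_le _ _).trans ?_
    rw [NumberField.totalWeight_eq_finrank, h3]
    have e1 := height_le h3 hβ hf hd h0
    have e2 := height_le h3 hβ' hf' hd' h0'
    have p1 := mulHeight₁_pos (⟨β, hβ⟩ : K)
    have p2 := mulHeight₁_pos (⟨β', hβ'⟩ : K)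
    have p3 : 0 ≤ mm f := p1.le.trans e1
    calc (2 : ℝ) ^ 3 * mulHeight₁ (⟨β, hβ⟩ : K) * mulHeight₁ (⟨β', hβ'⟩ : K) ≤
          2 ^ 3 * mm f * mm f' := by gcongr
      _ = _ := by norm_num
  have h2 : (‖β - β'‖⁻¹) ^ 2 ≤ mulHeight₁ γ⁻¹ := by
    rw [NumberField.mulHeight₁_eq]
    set v0 : InfinitePlace K := InfinitePlace.mk (K.val : K →+* ℂ) with hv0
    have hc : ¬ v0.IsReal := by
      rw [hv0, InfinitePlace.isReal_mk_iff, ComplexEmbedding.isReal_iff]
      intro hr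
      obtain ⟨x, hx, hxi⟩ := hK
      have := congrArg (fun φ : K →+* ℂ => φ ⟨x, hx⟩) hr
      simp only [ComplexEmbedding.conjugate_coe_eq] at this
      apply hxi
      have h5 : (starRingEnd ℂ) x = x := this
      exact Complex.conj_eq_iff_im.1 h5
    have hmult : v0.mult = 2 := by
      unfold InfinitePlace.mult
      rw [if_neg hc]
    have hv : v0 γ⁻¹ = ‖β - β'‖⁻¹ := by
      have e1 : v0 γ⁻¹ = ‖((γ⁻¹ : K) : ℂ)‖ := rfl
      rw [e1]
      have e2 : ((γ⁻¹ : K) : ℂ) = (β - β')⁻¹ := by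
        rw [← hγc]; push_cast; rfl
      rw [e2, norm_inv]
    have hfin : 1 ≤ ∏ᶠ v : FinitePlace K, max (v γ⁻¹) 1 := one_le_finprod fun _ => le_max_right _ _
    have hinf : (‖β - β'‖⁻¹) ^ 2 ≤ ∏ v : InfinitePlace K, max (v γ⁻¹) 1 ^ v.mult := by
      classical
      rw [← Finset.mul_prod_erase _ _ (Finset.mem_univ v0), hmult, hv]
      have e1 : (1 : ℝ) ≤ ∏ v ∈ Finset.univ.erase v0, max (v γ⁻¹) 1 ^ v.mult := by
        have e2 : ∏ v ∈ Finset.univ.erase v0, (1 : ℝ) ≤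
            ∏ v ∈ Finset.univ.erase v0, max (v γ⁻¹) 1 ^ v.mult :=
          Finset.prod_le_prod (fun _ _ => zero_le_one) fun v _ => one_le_pow₀ (le_max_right _ _)
        rwa [Finset.prod_const_one] at e2
      have e3 : (‖β - β'‖⁻¹) ^ 2 ≤ max (‖β - β'‖⁻¹) 1 ^ 2 :=
        pow_le_pow_left₀ (by positivity) (le_max_left _ _) 2
      have e4 : (0 : ℝ) ≤ max (‖β - β'‖⁻¹) 1 ^ 2 := by positivity
      nlinarith
    have hinf0 : 0 ≤ ∏ v : InfinitePlace K, max (v γ⁻¹) 1 ^ v.mult := by positivity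
    nlinarith
  have hn : 0 < ‖β - β'‖ := norm_pos_iff.2 (sub_ne_zero.2 hne)
  have h4 := h2.trans h1
  rw [inv_pow, inv_le_iff_one_le_mul₀ (by positivity)] at h4
  linarith

/-- a cubic number with Mahler measure at most `M` -/
def Cub (M : ℝ) (β : ℂ) : Prop :=
  β.im ≠ 0 ∧ ∃ f : ℤ[X], Irreducible f ∧ f.natDegree = 3 ∧ aeval β f = 0 ∧ mm f ≤ M

/-- the number of cubic numbers of one field -/
theorem card_K {K : IntermediateField ℚ ℂ} (h3 : finrank ℚ K = 3)
    (hK : ∃ x ∈ K, x.im ≠ 0) (m N : ℕ) (hm : 1 ≤ m) (hN : 1 ≤ N) (F : Finset ℂ)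
    (hF : ∀ β ∈ F, β ∈ K ∧ ‖β‖ ≤ m ∧ Cub N β) :
    (F.card : ℝ) ≤ 121 * (m : ℝ) ^ 2 * (N : ℝ) ^ 2 := by
  classical
  have := nf_of h3
  have hN0 : (0 : ℝ) < N := by exact_mod_cast hN
  have hm0 : (0 : ℝ) < m := by exact_mod_cast hm
  set c : ℝ := 5 * N with hc
  have hc0 : 0 < c := by positivity
  set g : ℂ → ℕ × ℕ := fun β => (⌊(β.re + m) * c⌋₊, ⌊(β.im + m) * c⌋₊) with hg
  have hb : ∀ β ∈ F, (0 ≤ (β.re + m) * c ∧ (β.re + m) * c ≤ 10 * m * N) ∧
      (0 ≤ (β.im + m) * c ∧ (β.im + m) * c ≤ 10 * m * N) := by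
    intro β hβ
    have h1 := (hF β hβ).2.1
    have h2 := abs_le.1 ((Complex.abs_re_le_norm β).trans h1)
    have h3 := abs_le.1 ((Complex.abs_im_le_norm β).trans h1)
    refine ⟨⟨mul_nonneg (by linarith) hc0.le, ?_⟩, ⟨mul_nonneg (by linarith) hc0.le, ?_⟩⟩
    · calc (β.re + m) * c ≤ (2 * m) * c := mul_le_mul_of_nonneg_right (by linarith) hc0.le
        _ = _ := by rw [hc]; ring
    · calc (β.im + m) * c ≤ (2 * m) * c := mul_le_mul_of_nonneg_right (by linarith) hc0.le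
        _ = _ := by rw [hc]; ring
  have hmaps : Set.MapsTo g F
      (range (10 * m * N + 1) ×ˢ range (10 * m * N + 1) : Finset (ℕ × ℕ)) := by
    intro β hβ
    rw [Finset.mem_coe] at hβ
    rw [Finset.mem_coe, mem_product, Finset.mem_range, Finset.mem_range]
    have e1 := hb β hβ
    constructor
    · rw [Nat.lt_add_one_iff]
      apply Nat.floor_le_of_le
      push_cast
      exact e1.1.2
    · rw [Nat.lt_add_one_iff]
      apply Nat.floor_le_of_le
      push_cast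
      exact e1.2.2
  have hinj : Set.InjOn g F := by
    intro β hβ β' hβ' h
    rw [Finset.mem_coe] at hβ hβ'
    simp only [hg, Prod.mk.injEq] at h
    have k1 := Pool.Agent.X124.MC.floor_close hc0 (hb β hβ).1.1 (hb β' hβ').1.1 h.1
    have k2 := Pool.Agent.X124.MC.floor_close hc0 (hb β hβ).2.1 (hb β' hβ').2.1 h.2
    by_contra hne
    obtain ⟨u1, -, -, f, u2, u3, u4, u5⟩ := hF β hβ
    obtain ⟨v1, -, -, f', v2, v3, v4, v5⟩ := hF β' hβ'
    have hs := sep3 h3 hK u1 v1 hne u2 u3 u4 v2 v3 v4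
    have m1 : 0 ≤ mm f := zero_le_one.trans (one_le_mm u2.ne_zero)
    have m2 : 0 ≤ mm f' := zero_le_one.trans (one_le_mm v2.ne_zero)
    have e1 : ‖β - β'‖ ^ 2 ≤ 2 * (1 / c) ^ 2 := by
      rw [← Complex.normSq_eq_norm_sq, Complex.normSq_apply, Complex.sub_re, Complex.sub_im]
      have q1 : (β.re - β'.re) ^ 2 ≤ (1 / c) ^ 2 := by
        rw [← sq_abs]
        refine pow_le_pow_left₀ (abs_nonneg _) ?_ 2
        have : β.re - β'.re = (β.re + m) - (β'.re + m) := by ring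
        rw [this]; exact k1
      have q2 : (β.im - β'.im) ^ 2 ≤ (1 / c) ^ 2 := by
        rw [← sq_abs]
        refine pow_le_pow_left₀ (abs_nonneg _) ?_ 2
        have : β.im - β'.im = (β.im + m) - (β'.im + m) := by ring
        rw [this]; exact k2
      nlinarith
    have e2 : 8 * mm f * mm f' * ‖β - β'‖ ^ 2 ≤ 8 * N * N * (2 * (1 / c) ^ 2) := by gcongr
    have e3 : 8 * (N : ℝ) * N * (2 * (1 / c) ^ 2) = 16 / 25 := by
      rw [hc]; field_simp; norm_num
    rw [e3] at e2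
    linarith
  have hcard := Finset.card_le_card_of_injOn g hmaps hinj
  rw [card_product, card_range] at hcard
  have hcard' : (F.card : ℝ) ≤ (10 * m * N + 1) * (10 * m * N + 1) := by exact_mod_cast hcard
  have hmN : 1 ≤ (m : ℝ) * N := by
    have h1 : (1 : ℝ) ≤ m := by exact_mod_cast hm
    have h2 : (1 : ℝ) ≤ N := by exact_mod_cast hN
    nlinarith
  nlinarith

/-- the degree of the field of a cubic number -/
lemma finrank_cub {f : ℤ[X]} (hf : Irreducible f) (hd : f.natDegree = 3) {β : ℂ}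
    (h0 : aeval β f = 0) : finrank ℚ ℚ⟮β⟯ = 3 := by
  have hprim : f.IsPrimitive := hf.isPrimitive (by omega)
  have hirr : Irreducible (f.map (Int.castRingHom ℚ)) :=
    (IsPrimitive.Int.irreducible_iff_irreducible_map_cast hprim).1 hf
  have hroot : aeval β (f.map (Int.castRingHom ℚ)) = 0 := by
    have : aeval β (f.map (algebraMap ℤ ℚ)) = 0 := by rw [aeval_map_algebraMap, h0]
    exact this
  have hmin := minpoly.eq_of_irreducible hirr hroot
  have hint : IsIntegral ℚ β := by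
    rw [← isAlgebraic_iff_isIntegral]
    exact ⟨_, hirr.ne_zero, hroot⟩
  rw [IntermediateField.adjoin.finrank hint, ← hmin,
    natDegree_mul_C (inv_ne_zero (leadingCoeff_ne_zero.2 hirr.ne_zero)),
    natDegree_map_eq_of_injective (RingHom.injective_int _), hd]

end Pool.Agent.X124.CB
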