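import Mathlib
import Pool.Agent.X124.CB.Pck

set_option autoImplicit false

/-!
The discriminant of a cubic field is at most a power of the Mahler measure of a generator.
-/

namespace Pool.Agent.X124.CB

open Module IntermediateField Finset Polynomial Pool.Agent.H990R4.VJ NumberField

lemma adj_top {K : Type*} [Field K] [NumberField K] (h3 : finrank ℚ K = 3) {γ : K}
    (hγ : ∀ t : ℚ, γ ≠ algebraMap ℚ K t) : ℚ⟮γ⟯ = ⊤ := by
  have hdvd := IntermediateField.finrank_dvd_of_le_right (le_top : ℚ⟮γ⟯ ≤ ⊤)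
  rw [IntermediateField.finrank_top', h3, Nat.dvd_prime Nat.prime_three] at hdvd
  apply IntermediateField.eq_of_le_of_finrank_eq le_top
  rcases hdvd with h | h
  · exfalso
    rw [IntermediateField.finrank_eq_one_iff, IntermediateField.adjoin_simple_eq_bot_iff,
      IntermediateField.mem_bot] at h
    obtain ⟨t, ht⟩ := h
    exact hγ t ht.symm
  · rw [h, IntermediateField.finrank_top', h3]

lemma no_quad' {K : Type*} [Field K] [NumberField K] (h3 : finrank ℚ K = 3) {γ : K}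
    (hγ : ∀ t : ℚ, γ ≠ algebraMap ℚ K t) {b c d : ℤ}
    (h : (b : K) * γ ^ 2 + c * γ + d = 0) : b = 0 ∧ c = 0 ∧ d = 0 := by
  by_contra hne
  set p : ℚ[X] := C (b : ℚ) * X ^ 2 + C (c : ℚ) * X + C (d : ℚ) with hp
  have hp0 : p ≠ 0 := by
    intro h0
    apply hne
    obtain ⟨e2, e1, e0⟩ := quad_zero h0
    exact ⟨by exact_mod_cast e2, by exact_mod_cast e1, by exact_mod_cast e0⟩
  have hr : Polynomial.aeval γ p = 0 := by
    rw [hp]
    simp only [map_add, map_mul, Polynomial.aeval_C, Polynomial.aeval_X, map_pow, eq_ratCast,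
      Rat.cast_intCast]
    exact h
  have hint : IsIntegral ℚ γ := Algebra.IsIntegral.isIntegral γ
  have h1 := IntermediateField.adjoin.finrank hint
  rw [adj_top h3 hγ, IntermediateField.finrank_top', h3] at h1
  have h2 := Polynomial.natDegree_le_of_dvd (minpoly.dvd ℚ γ hr) hp0
  have h4 : p.natDegree ≤ 2 := Polynomial.natDegree_quadratic_le
  omega

/-- **The bound for the discriminant.** -/
theorem discr_le {K : Type*} [Field K] [NumberField K] (h3 : finrank ℚ K = 3) {β : K}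
    (hβ : ∀ t : ℚ, β ≠ algebraMap ℚ K t) {f : ℤ[X]} (hd : f.natDegree = 3)
    (h0 : aeval β f = 0) : ((discr K).natAbs : ℝ) ≤ 19683 * mm f ^ 6 := by
  have hf0 : f ≠ 0 := by rintro rfl; simp at hd
  set a := f.coeff 3 with ha
  set b := f.coeff 2 with hb
  set c := f.coeff 1 with hc
  set d := f.coeff 0 with hdd
  have hlc : f.leadingCoeff = a := by rw [leadingCoeff, hd]
  have ha0 : a ≠ 0 := by rw [← hlc]; exact leadingCoeff_ne_zero.2 hf0
  have haK : (a : K) ≠ 0 := by exact_mod_cast ha0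
  have hint := isIntegral_leadingCoeff_smul f β h0
  rw [hlc] at hint
  obtain ⟨α, hαc⟩ : ∃ α : 𝓞 K, algebraMap (𝓞 K) K α = a * β :=
    ⟨⟨a • β, hint⟩, by rw [← zsmul_eq_mul]; rfl⟩
  have hex : (a : K) * β ^ 3 + b * β ^ 2 + c * β + d = 0 := by
    rw [← h0, aeval_eq_sum_range' (n := 4) (by omega)]
    simp only [Finset.sum_range_succ, Finset.range_zero, Finset.sum_empty, zsmul_eq_mul]
    ring
  have hα0 : ∀ t : ℚ, algebraMap (𝓞 K) K α ≠ algebraMap ℚ K t := by
    intro t ht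
    apply hβ (t / a)
    rw [hαc] at ht
    rw [map_div₀, ← ht]
    simp only [map_intCast]
    field_simp
  -- the integral equation
  set G : ℤ[X] := X ^ 3 + C b * X ^ 2 + C (a * c) * X + C (a ^ 2 * d) with hG
  have hGα : aeval α G = 0 := by
    apply RingOfIntegers.ext
    rw [hG]
    simp only [map_add, map_mul, map_pow, aeval_X, aeval_C, map_zero]
    simp only [eq_intCast, map_intCast]
    rw [hαc]
    push_cast
    linear_combination (a : K) ^ 2 * hex
  have hdvd : minpoly ℤ α ∣ G := minpoly.isIntegrallyClosed_dvd α.isIntegral hGα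
  obtain ⟨q, hq⟩ := hdvd
  set x : 𝓞 K := aeval α (derivative G) with hx
  have hadj : Algebra.adjoin ℚ {algebraMap (𝓞 K) K α} = ⊤ := by
    have h1 : (ℚ⟮algebraMap (𝓞 K) K α⟯).toSubalgebra = ⊤ := by rw [adj_top h3 hα0]; rfl
    rw [← h1]
    exact (adjoin_simple_toSubalgebra_of_isAlgebraic
      (Algebra.IsAlgebraic.isAlgebraic (R := ℚ)
        (algebraMap (𝓞 K) K α))).symm
  have h2 := aeval_derivative_mem_differentIdeal ℤ ℚ K α hadj
  have hxmem : x ∈ differentIdeal ℤ (𝓞 K) := by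
    have e1 : x = aeval α q * aeval α (derivative (minpoly ℤ α)) := by
      rw [hx, hq, derivative_mul, map_add, map_mul, map_mul, minpoly.aeval]
      ring
    rw [e1]
    exact Ideal.mul_mem_left _ _ h2
  have hxc : algebraMap (𝓞 K) K x = 3 * algebraMap (𝓞 K) K α ^ 2 +
      2 * b * algebraMap (𝓞 K) K α + a * c := by
    have e1 : derivative G = C 3 * X ^ 2 + C (2 * b) * X + C (a * c) := by
      rw [hG]
      simp only [derivative_add, derivative_mul, derivative_X_pow, derivative_X, derivative_C]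
      simp
      ring
    rw [hx, e1]
    simp only [map_add, map_mul, map_pow, aeval_X, aeval_C]
    simp only [eq_intCast, map_intCast]
    push_cast
    ring
  have hx0 : x ≠ 0 := by
    intro h
    rw [h] at hxc
    have e1 : ((3 : ℤ) : K) * algebraMap (𝓞 K) K α ^ 2 +
        ((2 * b : ℤ) : K) * algebraMap (𝓞 K) K α + ((a * c : ℤ) : K) = 0 := by
      push_cast
      rw [← hxc]
      simp
    exact absurd (no_quad' h3 hα0 e1).1 (by norm_num)
  have h4 : Ideal.absNorm (differentIdeal ℤ (𝓞 K)) ∣ Ideal.absNorm (Ideal.span {x}) :=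
    Ideal.absNorm_dvd_absNorm_of_le ((Ideal.span_singleton_le_iff_mem _).mpr hxmem)
  rw [NumberField.absNorm_differentIdeal K, Ideal.absNorm_span_singleton] at h4
  have hn0 : Algebra.norm ℤ x ≠ 0 := Algebra.norm_ne_zero_iff.mpr hx0
  have h5 : (NumberField.discr K).natAbs ≤ (Algebra.norm ℤ x).natAbs :=
    Nat.le_of_dvd (Int.natAbs_pos.mpr hn0) h4
  have h6 : ((NumberField.discr K).natAbs : ℝ) ≤ |(Algebra.norm ℤ x : ℝ)| := by
    have h7 : (((Algebra.norm ℤ x).natAbs : ℕ) : ℝ) = |(Algebra.norm ℤ x : ℝ)| := by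
      rw [Nat.cast_natAbs, Int.cast_abs]
    rw [← h7]
    exact_mod_cast h5
  have h8 : |(Algebra.norm ℤ x : ℝ)| = ∏ σ : K →ₐ[ℚ] ℂ, ‖σ (algebraMap (𝓞 K) K x)‖ := by
    have h9 := Algebra.norm_eq_prod_embeddings ℚ ℂ (algebraMap (𝓞 K) K x)
    rw [← Algebra.coe_norm_int] at h9
    have h10 := congrArg norm h9
    rw [norm_prod] at h10
    rw [← h10, eq_ratCast, Rat.cast_intCast, Complex.norm_intCast]
  refine h6.trans ?_
  rw [h8]
  have hM1 := one_le_mm hf0
  have hM : 0 < mm f := by linarith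
  have h10 : ∀ σ : K →ₐ[ℚ] ℂ, ‖σ (algebraMap (𝓞 K) K x)‖ ≤ 27 * mm f ^ 2 := by
    intro σ
    have r1 : aeval (σ β) f = 0 := by
      have : aeval (σ β) f = σ (aeval β f) := by
        rw [aeval_def, aeval_def]
        have := Polynomial.hom_eval₂ f (algebraMap ℤ K) (σ : K →+* ℂ) β
        rw [show σ (eval₂ (algebraMap ℤ K) β f) = (σ : K →+* ℂ) (eval₂ (algebraMap ℤ K) β f) from rfl,
          this]
        congr 1
        exact RingHom.ext_int _ _
      rw [this, h0, map_zero]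
    have r2 := root_bound hf0 r1
    rw [hlc] at r2
    have r3 : |(a : ℝ)| ≤ mm f := by
      have : (1 : ℝ) ≤ max 1 ‖σ β‖ := le_max_left _ _
      nlinarith [abs_nonneg (a : ℝ)]
    have r4 : ‖σ (algebraMap (𝓞 K) K α)‖ ≤ mm f := by
      rw [hαc, map_mul, norm_mul, map_intCast, Complex.norm_intCast]
      have : ‖σ β‖ ≤ max 1 ‖σ β‖ := le_max_right _ _
      nlinarith [abs_nonneg (a : ℝ)]
    have r5 : |(b : ℝ)| ≤ 8 * mm f := by
      have := coeff_le f 2
      rw [hd] at this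
      norm_num at this
      exact this
    have r6 : |(c : ℝ)| ≤ 8 * mm f := by
      have := coeff_le f 1
      rw [hd] at this
      norm_num at this
      exact this
    rw [hxc]
    simp only [map_add, map_mul, map_pow, map_intCast, map_ofNat]
    generalize σ (algebraMap (𝓞 K) K α) = w at r4 ⊢
    calc ‖3 * w ^ 2 + 2 * (b : ℂ) * w + (a : ℂ) * (c : ℂ)‖ ≤
          ‖3 * w ^ 2‖ + ‖2 * (b : ℂ) * w‖ + ‖(a : ℂ) * (c : ℂ)‖ := norm_add₃_le
      _ = 3 * ‖w‖ ^ 2 + 2 * |(b : ℝ)| * ‖w‖ + |(a : ℝ)| * |(c : ℝ)| := by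
          simp only [norm_mul, norm_pow, Complex.norm_intCast, Complex.norm_ofNat]
      _ ≤ 3 * mm f ^ 2 + 2 * (8 * mm f) * mm f + mm f * (8 * mm f) := by gcongr
      _ = _ := by ring
  calc ∏ σ : K →ₐ[ℚ] ℂ, ‖σ (algebraMap (𝓞 K) K x)‖ ≤ ∏ _σ : K →ₐ[ℚ] ℂ, 27 * mm f ^ 2 :=
        Finset.prod_le_prod (fun _ _ => norm_nonneg _) fun σ _ => h10 σ
    _ = (27 * mm f ^ 2) ^ 3 := by
        rw [Finset.prod_const, Finset.card_univ, AlgHom.card, h3]
    _ = _ := by ring

/-- the bound for the field of a complex number -/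
theorem dK_le {f : ℤ[X]} (hf : Irreducible f) (hd : f.natDegree = 3) {β : ℂ}
    (h0 : aeval β f = 0) : (dK ℚ⟮β⟯ : ℝ) ≤ 19683 * mm f ^ 6 := by
  have h3 := finrank_cub hf hd h0
  have := nf_of h3
  rw [dK_eq]
  refine discr_le h3 (β := AdjoinSimple.gen ℚ β) ?_ hd (aeval_mk (mem_adjoin_simple_self ℚ β) h0)
  intro t ht
  have h1 := congrArg (fun y : ℚ⟮β⟯ => (y : ℂ)) ht
  simp only [AdjoinSimple.coe_gen] at h1
  have h2 : ℚ⟮β⟯ = ⊥ := by
    rw [adjoin_simple_eq_bot_iff, mem_bot]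
    exact ⟨t, h1.symm⟩
  have h4 : finrank ℚ ℚ⟮β⟯ = 1 := IntermediateField.finrank_eq_one_iff.2 h2
  omega

/-- conjugate numbers have fields with the same discriminant -/
theorem dK_conj {f : ℤ[X]} (hf : Irreducible f) (hd : f.natDegree = 3) {x z : ℂ}
    (hx : aeval x f = 0) (hz : aeval z f = 0) : dK ℚ⟮x⟯ = dK ℚ⟮z⟯ := by
  have hprim : f.IsPrimitive := hf.isPrimitive (by omega)
  have hirr : Irreducible (f.map (Int.castRingHom ℚ)) :=
    (IsPrimitive.Int.irreducible_iff_irreducible_map_cast hprim).1 hf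
  have hr : ∀ β : ℂ, aeval β f = 0 → aeval β (f.map (Int.castRingHom ℚ)) = 0 := by
    intro β hβ
    have : aeval β (f.map (algebraMap ℤ ℚ)) = 0 := by rw [aeval_map_algebraMap, hβ]
    exact this
  have hmin : minpoly ℚ x = minpoly ℚ z := by
    rw [← minpoly.eq_of_irreducible hirr (hr x hx), ← minpoly.eq_of_irreducible hirr (hr z hz)]
  have hix : IsIntegral ℚ x := by
    rw [← isAlgebraic_iff_isIntegral]
    exact ⟨_, hirr.ne_zero, hr x hx⟩
  have hiz : IsIntegral ℚ z := by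
    rw [← isAlgebraic_iff_isIntegral]
    exact ⟨_, hirr.ne_zero, hr z hz⟩
  have := nf_of (finrank_cub hf hd hx)
  have := nf_of (finrank_cub hf hd hz)
  rw [dK_eq, dK_eq]
  congr 1
  refine discr_eq_discr_of_algEquiv _ ((adjoin.powerBasis hix).equivOfMinpoly
    (adjoin.powerBasis hiz) ?_)
  rw [adjoin.powerBasis_gen, adjoin.powerBasis_gen]
  have e1 : minpoly ℚ (AdjoinSimple.gen ℚ x) = minpoly ℚ x :=
    minpoly_gen ℚ x
  have e2 : minpoly ℚ (AdjoinSimple.gen ℚ z) = minpoly ℚ z :=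
    minpoly_gen ℚ z
  exact (e1.trans hmin).trans e2.symm

end Pool.Agent.X124.CB
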