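import Mathlib
import Pool.Agent.X124.CB.Dsc

set_option autoImplicit false

/-!
Almost every complex number has a logarithmic error term for the approximation by non-real cubic
numbers.
-/

namespace Pool.Agent.X124.CB

open Module IntermediateField Finset Polynomial Pool.Agent.H990R4.VJ MeasureTheory Filter

lemma cub_fin (M : ℝ) : {β : ℂ | Cub M β}.Finite := by
  have hfin := finite_mahlerMeasure_le 3 ⟨max M 0, le_max_right _ _⟩
  refine (hfin.biUnion (t := fun f : ℤ[X] => {x : ℂ | f ≠ 0 ∧ aeval x f = 0})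
    fun f _ => ?_).subset ?_
  · by_cases hf : f = 0
    · simp [hf]
    · have h0 : f.map (Int.castRingHom ℂ) ≠ 0 := by
        rwa [Ne, Polynomial.map_eq_zero_iff (RingHom.injective_int _)]
      refine ((f.map (Int.castRingHom ℂ)).roots.toFinset.finite_toSet).subset fun x hx => ?_
      rw [Finset.mem_coe, Multiset.mem_toFinset, mem_roots h0, IsRoot.def, eval_map]
      have := hx.2
      rw [aeval_def] at this
      exact this
  · rintro x ⟨-, f, h1, h2, h3, h4⟩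
    simp only [Set.mem_iUnion]
    exact ⟨f, ⟨h2.le, h4.trans (le_max_left _ _)⟩, h1.ne_zero, h3⟩

/-- the cubic numbers in a disc -/
noncomputable def PP (m k : ℕ) : Finset ℂ :=
  ((cub_fin (2 ^ k)).inter_of_left {β : ℂ | ‖β‖ ≤ m}).toFinset

lemma mem_PP {m k : ℕ} {β : ℂ} : β ∈ PP m k ↔ Cub (2 ^ k) β ∧ ‖β‖ ≤ m := by
  unfold PP
  rw [Set.Finite.mem_toFinset]
  rfl

/-- **The sum over all fields.** -/
theorem sum_PP (m k : ℕ) (hm : 1 ≤ m) : ∑ β ∈ PP m k, 1 / (dK ℚ⟮β⟯ : ℝ) ≤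
    302000000 * (m : ℝ) ^ 2 * ((k : ℝ) + 1) ^ 2 * 4 ^ k := by
  classical
  set S : Finset (IntermediateField ℚ ℂ) := (PP m k).image fun β => ℚ⟮β⟯ with hS
  have hmaps : ∀ β ∈ PP m k, ℚ⟮β⟯ ∈ S := fun β hβ => Finset.mem_image_of_mem _ hβ
  have hprop : ∀ K ∈ S, finrank ℚ K = 3 ∧ (∃ x ∈ K, x.im ≠ 0) ∧ dK K ≤ 16 ^ (2 * k + 4) := by
    intro K hK
    rw [hS, Finset.mem_image] at hK
    obtain ⟨β, hβ, rfl⟩ := hK
    obtain ⟨⟨him, f, h1, h2, h3, h4⟩, -⟩ := mem_PP.1 hβ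
    refine ⟨finrank_cub h1 h2 h3, ⟨β, mem_adjoin_simple_self ℚ β, him⟩, ?_⟩
    have h5 := dK_le h1 h2 h3
    have hM1 := one_le_mm h1.ne_zero
    have h6 : mm f ^ 6 ≤ ((2 : ℝ) ^ k) ^ 6 := pow_le_pow_left₀ (by linarith) h4 6
    have h7 : (19683 : ℝ) * ((2 : ℝ) ^ k) ^ 6 ≤ 16 ^ (2 * k + 4) := by
      have e1 : (16 : ℝ) ^ (2 * k + 4) = 65536 * ((2 : ℝ) ^ k) ^ 8 := by
        rw [pow_add, pow_mul, ← pow_mul (2 : ℝ) k 8, mul_comm k 8, pow_mul (2 : ℝ) 8 k]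
        norm_num
        ring
      rw [e1]
      have e2 : (1 : ℝ) ≤ 2 ^ k := one_le_pow₀ (by norm_num)
      have e3 : ((2 : ℝ) ^ k) ^ 6 ≤ ((2 : ℝ) ^ k) ^ 8 := pow_le_pow_right₀ e2 (by norm_num)
      have e4 : (0 : ℝ) ≤ ((2 : ℝ) ^ k) ^ 6 := by positivity
      linarith
    have h8 : (dK ℚ⟮β⟯ : ℝ) ≤ 16 ^ (2 * k + 4) := by linarith
    exact_mod_cast h8
  rw [← Finset.sum_fiberwise_of_maps_to hmaps]
  have h1 : ∀ K ∈ S, ∑ β ∈ (PP m k).filter (fun β => ℚ⟮β⟯ = K), 1 / (dK ℚ⟮β⟯ : ℝ) ≤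
      121 * (m : ℝ) ^ 2 * 4 ^ k * (1 / (dK K : ℝ)) := by
    intro K hK
    have e1 : ∑ β ∈ (PP m k).filter (fun β => ℚ⟮β⟯ = K), 1 / (dK ℚ⟮β⟯ : ℝ) =
        (((PP m k).filter (fun β => ℚ⟮β⟯ = K)).card : ℝ) * (1 / (dK K : ℝ)) := by
      rw [Finset.sum_congr rfl (g := fun _ => 1 / (dK K : ℝ))
        (fun β hβ => by rw [(Finset.mem_filter.1 hβ).2]), Finset.sum_const, nsmul_eq_mul]
    rw [e1]
    apply mul_le_mul_of_nonneg_right _ (by positivity)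
    have e2 := card_K (hprop K hK).1 (hprop K hK).2.1 m (2 ^ k) hm Nat.one_le_two_pow
      ((PP m k).filter (fun β => ℚ⟮β⟯ = K)) (by
        intro β hβ
        rw [Finset.mem_filter] at hβ
        obtain ⟨c1, c2⟩ := mem_PP.1 hβ.1
        refine ⟨?_, c2, by push_cast; exact c1⟩
        rw [← hβ.2]; exact mem_adjoin_simple_self ℚ β)
    have e3 : (((2 ^ k : ℕ) : ℝ)) ^ 2 = 4 ^ k := by
      push_cast
      rw [← pow_mul, mul_comm k 2, pow_mul]; norm_num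
    rw [e3] at e2
    exact e2
  refine (Finset.sum_le_sum h1).trans ?_
  rw [← Finset.mul_sum]
  have h2 := sum_fields (2 * k + 4) S hprop
  push_cast at h2
  have hk : (0 : ℝ) ≤ k := Nat.cast_nonneg k
  calc 121 * (m : ℝ) ^ 2 * 4 ^ k * ∑ K ∈ S, 1 / (dK K : ℝ) ≤
        121 * (m : ℝ) ^ 2 * 4 ^ k * (82944 * (2 * (k : ℝ) + 4 + 1) * (2 * k + 4 + 2)) :=
        mul_le_mul_of_nonneg_left h2 (by positivity)
    _ ≤ 121 * (m : ℝ) ^ 2 * 4 ^ k * (82944 * (5 * ((k : ℝ) + 1)) * (6 * (k + 1))) := by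
        gcongr <;> linarith
    _ = 301086720 * (m : ℝ) ^ 2 * ((k : ℝ) + 1) ^ 2 * 4 ^ k := by ring
    _ ≤ _ := by gcongr; norm_num

/-- the radius -/
noncomputable def rr (C : ℝ) (k : ℕ) (β : ℂ) : ℝ :=
  (2 ^ k : ℝ)⁻¹ * ((k : ℝ) + 1) ^ (-C) * (dK ℚ⟮β⟯ : ℝ) ^ (-(1 / 2) : ℝ)

/-- **Almost every complex number of a disc.** -/
theorem ae_cub_region (C : ℝ) (hC : 3 / 2 < C) (m : ℕ) : ∀ᵐ z : ℂ, ‖z‖ ≤ m →
    ∃ c : ℝ, 0 < c ∧ ∀ (β : ℂ) (f : ℤ[X]), β.im ≠ 0 → Irreducible f → f.natDegree = 3 →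
      aeval β f = 0 →
      c * (mm f)⁻¹ * (1 + Real.log (mm f)) ^ (-C) * (dK ℚ⟮β⟯ : ℝ) ^ (-(1 / 2) : ℝ) ≤ ‖z - β‖ := by
  classical
  set E : ℕ → Set ℂ := fun k => ⋃ β ∈ PP (m + 1) k, Metric.closedBall β (rr C k β) with hE
  set A : ℝ := 302000000 * ((m : ℝ) + 1) ^ 2 * Real.pi with hA
  have hdpos : ∀ β : ℂ, (0 : ℝ) < dK ℚ⟮β⟯ := fun β => by exact_mod_cast one_le_dK _
  have hvol : ∀ k : ℕ, volume (E k) ≤ ENNReal.ofReal (A * ((k : ℝ) + 1) ^ (2 - 2 * C)) := by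
    intro k
    refine (measure_biUnion_finset_le _ _).trans ?_
    have hk1 : (0 : ℝ) < (k : ℝ) + 1 := by positivity
    have h1 : ∀ β ∈ PP (m + 1) k, volume (Metric.closedBall β (rr C k β)) = ENNReal.ofReal
        (Real.pi * ((4 : ℝ) ^ k)⁻¹ * ((k : ℝ) + 1) ^ (-(2 * C)) * (1 / (dK ℚ⟮β⟯ : ℝ))) := by
      intro β _
      have hr : 0 ≤ rr C k β := by unfold rr; positivity
      rw [Complex.volume_closedBall, ← ENNReal.ofReal_pow hr]
      have hpi : ((NNReal.pi : NNReal) : ENNReal) = ENNReal.ofReal Real.pi := by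
        rw [← NNReal.coe_real_pi, ENNReal.ofReal_coe_nnreal]
      rw [hpi, ← ENNReal.ofReal_mul (by positivity)]
      congr 1
      unfold rr
      have e1 : ((dK ℚ⟮β⟯ : ℝ) ^ (-(1 / 2) : ℝ)) ^ 2 = 1 / (dK ℚ⟮β⟯ : ℝ) := by
        rw [← Real.rpow_natCast, ← Real.rpow_mul (hdpos β).le]
        norm_num
        exact Real.rpow_neg_one _
      have e2 : (((k : ℝ) + 1) ^ (-C)) ^ 2 = ((k : ℝ) + 1) ^ (-(2 * C)) := by
        rw [← Real.rpow_natCast, ← Real.rpow_mul hk1.le]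
        congr 1
        push_cast; ring
      have e3 : (((2 : ℝ) ^ k)⁻¹) ^ 2 = ((4 : ℝ) ^ k)⁻¹ := by
        rw [inv_pow, ← pow_mul, mul_comm k 2, pow_mul]; norm_num
      rw [mul_pow, mul_pow, e1, e2, e3]
      ring
    rw [Finset.sum_congr rfl h1, ← ENNReal.ofReal_sum_of_nonneg (fun β _ => by positivity)]
    apply ENNReal.ofReal_le_ofReal
    rw [← Finset.mul_sum]
    have hs := sum_PP (m + 1) k (by omega)
    push_cast at hs
    calc _ ≤ Real.pi * ((4 : ℝ) ^ k)⁻¹ * ((k : ℝ) + 1) ^ (-(2 * C)) *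
          (302000000 * ((m : ℝ) + 1) ^ 2 * ((k : ℝ) + 1) ^ 2 * 4 ^ k) :=
          mul_le_mul_of_nonneg_left hs (by positivity)
      _ = A * (((k : ℝ) + 1) ^ (-(2 * C)) * ((k : ℝ) + 1) ^ (2 : ℝ)) := by
          rw [hA, Real.rpow_two]; field_simp
      _ = _ := by
          rw [← Real.rpow_add hk1]
          congr 2
          ring
  have hsum : ∑' k, volume (E k) ≠ ⊤ := by
    have h1 : Summable fun k : ℕ => A * ((k : ℝ) + 1) ^ (2 - 2 * C) := by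
      apply Summable.mul_left
      have h2 := (summable_nat_add_iff 1).2
        (Real.summable_nat_rpow.2 (by linarith : 2 - 2 * C < -1))
      refine h2.congr fun k => ?_
      push_cast
      rfl
    have h2 : ∑' k : ℕ, ENNReal.ofReal (A * ((k : ℝ) + 1) ^ (2 - 2 * C)) ≠ ⊤ := by
      rw [← ENNReal.ofReal_tsum_of_nonneg (fun k => by positivity) h1]
      exact ENNReal.ofReal_ne_top
    exact ne_top_of_le_ne_top h2 (ENNReal.tsum_le_tsum hvol)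
  have hBC := ae_eventually_notMem hsum
  filter_upwards [hBC] with z hz hzm
  obtain ⟨k0, hk0⟩ := eventually_atTop.1 hz
  have hk00 : (0 : ℝ) ≤ k0 := Nat.cast_nonneg _
  set B : ℝ := ((k0 : ℝ) + 4) ^ (-C) * (4 * 2 ^ k0)⁻¹ with hB
  have hB0 : 0 < B := by rw [hB]; positivity
  have hB1 : B ≤ 1 := by
    rw [hB]
    have e1 : ((k0 : ℝ) + 4) ^ (-C) ≤ 1 :=
      Real.rpow_le_one_of_one_le_of_nonpos (by linarith) (by linarith)
    have e2 : (4 * (2 : ℝ) ^ k0)⁻¹ ≤ 1 := by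
      apply inv_le_one_of_one_le₀
      have : (1 : ℝ) ≤ 2 ^ k0 := one_le_pow₀ (by norm_num)
      linarith
    exact mul_le_one₀ e1 (by positivity) e2
  refine ⟨B, hB0, fun β f him hf hd h0 => ?_⟩
  have hM1 := one_le_mm hf.ne_zero
  have hM0 : 0 < mm f := by linarith
  have hL : 0 ≤ Real.log (mm f) := Real.log_nonneg hM1
  have hd1 : (1 : ℝ) ≤ dK ℚ⟮β⟯ := by exact_mod_cast one_le_dK _
  have hw0 : 0 ≤ (dK ℚ⟮β⟯ : ℝ) ^ (-(1 / 2) : ℝ) := by positivity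
  have hw1 : (dK ℚ⟮β⟯ : ℝ) ^ (-(1 / 2) : ℝ) ≤ 1 :=
    Real.rpow_le_one_of_one_le_of_nonpos hd1 (by norm_num)
  have hl0 : 0 ≤ (1 + Real.log (mm f)) ^ (-C) := by positivity
  have hl1 : (1 + Real.log (mm f)) ^ (-C) ≤ 1 :=
    Real.rpow_le_one_of_one_le_of_nonpos (by linarith) (by linarith)
  have hi1 : (mm f)⁻¹ ≤ 1 := inv_le_one_of_one_le₀ hM1
  by_cases hβ : ‖β‖ ≤ (m : ℝ) + 1
  · set n : ℕ := ⌈mm f⌉₊ with hn
    have hn1 : 1 ≤ n := Nat.one_le_ceil_iff.2 hM0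
    have hMn : mm f ≤ n := Nat.le_ceil _
    have hnM : (n : ℝ) ≤ 2 * mm f := by
      have := Nat.ceil_lt_add_one hM0.le
      linarith
    set k := max (Nat.clog 2 n) k0 with hk
    have h1 : n ≤ 2 ^ k := (Nat.le_pow_clog (by norm_num) _).trans
      (Nat.pow_le_pow_right (by norm_num) (le_max_left _ _))
    have h1' : mm f ≤ 2 ^ k := by
      have : (n : ℝ) ≤ 2 ^ k := by exact_mod_cast h1
      linarith
    have h2 : (2 : ℝ) ^ k ≤ 4 * 2 ^ k0 * mm f := by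
      have h3 := Pool.Agent.X124.MC.clog_le hn1
      have h3' : (2 : ℝ) ^ Nat.clog 2 n ≤ 2 * n := by exact_mod_cast h3
      have h4 : (1 : ℝ) ≤ 2 ^ k0 := one_le_pow₀ (by norm_num)
      rcases le_total (Nat.clog 2 n) k0 with h | h
      · rw [hk, max_eq_right h]
        nlinarith
      · rw [hk, max_eq_left h]
        calc (2 : ℝ) ^ Nat.clog 2 n ≤ 4 * mm f := by linarith
          _ ≤ _ := by nlinarith
    have h5 := hk0 k (le_max_right _ _)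
    rw [hE] at h5
    simp only [Set.mem_iUnion, not_exists] at h5
    have hmem : β ∈ PP (m + 1) k := by
      rw [mem_PP]
      refine ⟨⟨him, f, hf, hd, h0, h1'⟩, ?_⟩
      push_cast
      exact hβ
    have h6 := h5 β hmem
    rw [Metric.mem_closedBall, not_le, dist_eq_norm] at h6
    refine le_trans ?_ h6.le
    unfold rr
    apply mul_le_mul_of_nonneg_right _ hw0
    have hkk : (k : ℝ) + 1 ≤ ((k0 : ℝ) + 4) * (1 + Real.log (mm f)) := by
      have e1 := Pool.Agent.X124.MC.clog_le_log hn1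
      have e2 : (k : ℝ) ≤ max (Nat.clog 2 n : ℝ) k0 := by
        rw [hk]; push_cast; exact le_rfl
      have e3 : Real.log n ≤ Real.log 2 + Real.log (mm f) := by
        rw [← Real.log_mul (by norm_num) hM0.ne']
        exact Real.log_le_log (by exact_mod_cast hn1) hnM
      have e4 := Real.log_two_lt_d9
      have e5 : (k : ℝ) ≤ k0 + (3 + 2 * Real.log (mm f)) := by
        refine e2.trans (max_le ?_ ?_) <;> linarith
      nlinarith [mul_nonneg hk00 hL]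
    have e1 : ((k0 : ℝ) + 4) ^ (-C) * (1 + Real.log (mm f)) ^ (-C) ≤ ((k : ℝ) + 1) ^ (-C) := by
      rw [← Real.mul_rpow (by positivity) (by positivity)]
      exact Real.rpow_le_rpow_of_nonpos (by positivity) hkk (by linarith)
    have e2 : (4 * (2 : ℝ) ^ k0)⁻¹ * (mm f)⁻¹ ≤ (2 ^ k : ℝ)⁻¹ := by
      rw [← mul_inv]
      exact inv_anti₀ (by positivity) h2
    calc B * (mm f)⁻¹ * (1 + Real.log (mm f)) ^ (-C) =
          ((4 * (2 : ℝ) ^ k0)⁻¹ * (mm f)⁻¹) *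
          (((k0 : ℝ) + 4) ^ (-C) * (1 + Real.log (mm f)) ^ (-C)) := by
          rw [hB]; ring
      _ ≤ _ := mul_le_mul e2 e1 (by positivity) (by positivity)
  · push Not at hβ
    have h1 : 1 ≤ ‖z - β‖ := by
      have := norm_sub_norm_le β z
      rw [norm_sub_rev] at this
      linarith
    refine le_trans ?_ h1
    exact mul_le_one₀ (mul_le_one₀ (mul_le_one₀ hB1 (by positivity) hi1) hl0 hl1) hw0 hw1

/-- **Almost every complex number.** -/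
theorem ae_cub (C : ℝ) (hC : 3 / 2 < C) : ∀ᵐ z : ℂ,
    ∃ c : ℝ, 0 < c ∧ ∀ (β : ℂ) (f : ℤ[X]), β.im ≠ 0 → Irreducible f → f.natDegree = 3 →
      aeval β f = 0 →
      c * (mm f)⁻¹ * (1 + Real.log (mm f)) ^ (-C) * (dK ℚ⟮β⟯ : ℝ) ^ (-(1 / 2) : ℝ) ≤ ‖z - β‖ := by
  have h1 := ae_all_iff.2 (fun n : ℕ => ae_cub_region C hC n)
  filter_upwards [h1] with z hz
  obtain ⟨n, hn⟩ := exists_nat_ge ‖z‖
  exact hz n hn

end Pool.Agent.X124.CB
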