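import Mathlib
import Pool.Agent.X124.CB.Vol

set_option autoImplicit false

/-!
The proximity function of cubic points for almost every tuple of conjugate pairs.
-/

namespace Pool.Agent.X124.CB

open Module IntermediateField Finset Polynomial Pool.Agent.H990R4.VJ MeasureTheory Filter
  ComplexConjugate Pool.Agent.X124.MC Pool.Agent.X124.MV

/-- the condition for cubic numbers -/
def GoodQ {s : ℕ} (β : Fin s → ℂ) : Prop :=
  ∀ (n : ℕ) (i : Fin s), ∃ c : ℝ, 0 < c ∧ ∀ (z : ℂ) (f : ℤ[X]), z.im ≠ 0 → Irreducible f →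
    f.natDegree = 3 → aeval z f = 0 →
    c * (mm f)⁻¹ * (1 + Real.log (mm f)) ^ (-(3 / 2 + 1 / ((n : ℝ) + 1))) *
      (dK ℚ⟮z⟯ : ℝ) ^ (-(1 / 2) : ℝ) ≤ ‖β i - z‖

theorem ae_goodQ (s : ℕ) : ∀ᵐ β : Fin s → ℂ, GoodQ β := by
  unfold GoodQ
  rw [ae_all_iff]; intro n
  rw [ae_all_iff]; intro i
  refine ae_evalC (P := fun w : ℂ => ∃ c : ℝ, 0 < c ∧ ∀ (z : ℂ) (f : ℤ[X]), z.im ≠ 0 →
    Irreducible f → f.natDegree = 3 → aeval z f = 0 →
    c * (mm f)⁻¹ * (1 + Real.log (mm f)) ^ (-(3 / 2 + 1 / ((n : ℝ) + 1))) *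
      (dK ℚ⟮z⟯ : ℝ) ^ (-(1 / 2) : ℝ) ≤ ‖w - z‖) i (ae_cub _ ?_)
  have : 0 < 1 / ((n : ℝ) + 1) := by positivity
  linarith

/-- the local height -/
noncomputable def Lo (z w : ℂ) : ℝ := Real.log (max 1 ‖z‖ * max 1 ‖w‖ / ‖z - w‖)

lemma Lo_le (z w : ℂ) (h : z ≠ w) : Lo z w ≤
    Real.log (max 1 ‖w‖ * (2 + ‖w‖)) - Real.log (min 1 ‖z - w‖) := by
  have ht : 0 < ‖z - w‖ := norm_pos_iff.2 (sub_ne_zero.2 h)
  have hs : 0 < min 1 ‖z - w‖ := lt_min one_pos ht
  have hw : (0 : ℝ) < max 1 ‖w‖ := lt_of_lt_of_le one_pos (le_max_left _ _)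
  have hz : (0 : ℝ) < max 1 ‖z‖ := lt_of_lt_of_le one_pos (le_max_left _ _)
  have hw0 : 0 ≤ ‖w‖ := norm_nonneg w
  unfold Lo
  rw [← Real.log_div (by positivity) hs.ne']
  apply Real.log_le_log (by positivity)
  rw [div_le_div_iff₀ ht hs]
  have h1 : max 1 ‖z‖ ≤ 1 + ‖w‖ + ‖z - w‖ := by
    apply max_le (by linarith)
    have := norm_add_le (z - w) w
    rw [sub_add_cancel] at this
    linarith
  have h2 : min 1 ‖z - w‖ ≤ 1 := min_le_left _ _
  have h3 : min 1 ‖z - w‖ ≤ ‖z - w‖ := min_le_right _ _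
  have h4 : max 1 ‖z‖ * min 1 ‖z - w‖ ≤ (2 + ‖w‖) * ‖z - w‖ := by
    calc max 1 ‖z‖ * min 1 ‖z - w‖ ≤ (1 + ‖w‖ + ‖z - w‖) * min 1 ‖z - w‖ :=
          mul_le_mul_of_nonneg_right h1 hs.le
      _ = (1 + ‖w‖) * min 1 ‖z - w‖ + ‖z - w‖ * min 1 ‖z - w‖ := by ring
      _ ≤ (1 + ‖w‖) * ‖z - w‖ + ‖z - w‖ * 1 :=
          add_le_add (mul_le_mul_of_nonneg_left h3 (by positivity))
            (mul_le_mul_of_nonneg_left h2 ht.le)
      _ = _ := by ring
  calc max 1 ‖z‖ * max 1 ‖w‖ * min 1 ‖z - w‖ = max 1 ‖w‖ * (max 1 ‖z‖ * min 1 ‖z - w‖) := by ring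
    _ ≤ max 1 ‖w‖ * ((2 + ‖w‖) * ‖z - w‖) := mul_le_mul_of_nonneg_left h4 hw.le
    _ = _ := by ring

/-- all points of the divisor -/
noncomputable def WW {s : ℕ} (β : Fin s → ℂ) (p : Fin s × Bool) : ℂ :=
  if p.2 then β p.1 else conj (β p.1)

lemma gg_le {s : ℕ} (α : Fin 0 → ℝ) (β : Fin s → ℂ) (z : ℂ) (hz : ∀ p, z ≠ WW β p) :
    gg α β z ≤ ∑ p, Real.log (max 1 ‖WW β p‖ * (2 + ‖WW β p‖)) +
      ∑ p, -Real.log (min 1 ‖z - WW β p‖) := by
  have h13 : (Finset.univ : Finset (Fin 0)) = ∅ := rfl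
  unfold gg
  rw [h13, Finset.sum_empty, zero_add, ← Finset.sum_add_distrib, Fintype.sum_prod_type]
  apply Finset.sum_le_sum
  intro j _
  rw [Fintype.sum_bool]
  have h1 := Lo_le z _ (hz (j, true))
  have h2 := Lo_le z _ (hz (j, false))
  have e1 : WW β (j, true) = β j := rfl
  have e2 : WW β (j, false) = conj (β j) := rfl
  rw [e1] at h1 ⊢
  rw [e2] at h2 ⊢
  unfold Lo at h1 h2
  rw [Complex.norm_conj] at h2
  rw [Complex.norm_conj]
  linarith

/-- a cubic polynomial has a real root -/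
lemma exists_real (f : ℤ[X]) (hd : f.natDegree = 3) : ∃ r : ℂ, r.im = 0 ∧ aeval r f = 0 := by
  have hf0 : f ≠ 0 := by rintro rfl; simp at hd
  set F : ℝ[X] := f.map (Int.castRingHom ℝ) with hF
  have hFd : F.natDegree = 3 := by rw [hF, natDegree_map_eq_of_injective (RingHom.injective_int _), hd]
  have hae : ∀ z : ℂ, aeval z F = aeval z f := by
    intro z
    have : aeval z (f.map (algebraMap ℤ ℝ)) = aeval z f := aeval_map_algebraMap ℝ z f
    exact this
  obtain ⟨z, hz⟩ := IsAlgClosed.exists_aeval_eq_zero ℂ F (by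
    rw [degree_eq_natDegree (by intro h; rw [h] at hFd; simp at hFd), hFd]; norm_num)
  by_cases hi : z.im = 0
  · exact ⟨z, hi, by rw [← hae]; exact hz⟩
  · obtain ⟨l, hl⟩ := quadratic_dvd_of_aeval_eq_zero_im_ne_zero F hz hi
    have hq : (X ^ 2 - C (2 * z.re) * X + C (‖z‖ ^ 2) : ℝ[X]).natDegree = 2 := by
      compute_degree!
    have hq0 : (X ^ 2 - C (2 * z.re) * X + C (‖z‖ ^ 2) : ℝ[X]) ≠ 0 := by
      intro h; rw [h] at hq; simp at hq
    have hl0 : l ≠ 0 := by
      rintro rfl; rw [mul_zero] at hl; rw [hl] at hFd; simp at hFd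
    have hld : l.natDegree = 1 := by
      have := natDegree_mul hq0 hl0
      rw [← hl, hFd, hq] at this
      omega
    have hdeg : l.degree = 1 := by rw [degree_eq_natDegree hl0, hld]; rfl
    obtain ⟨t, ht⟩ := exists_root_of_degree_eq_one hdeg
    refine ⟨(t : ℂ), Complex.ofReal_im t, ?_⟩
    rw [← hae, hl, map_mul]
    have : aeval (t : ℂ) l = ((eval t l : ℝ) : ℂ) := by
      rw [← Complex.coe_algebraMap, aeval_algebraMap_apply]
      simp
    rw [this, ht]
    simp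

/-- the roots of a cubic polynomial -/
lemma exists_roots (f : ℤ[X]) (hd : f.natDegree = 3) : ∃ r z1 z2 : ℂ, r.im = 0 ∧
    aeval r f = 0 ∧ aeval z1 f = 0 ∧ aeval z2 f = 0 ∧
    (f.map (Int.castRingHom ℂ)).roots = {r, z1, z2} := by
  have hf0 : f ≠ 0 := by rintro rfl; simp at hd
  have h0 : f.map (Int.castRingHom ℂ) ≠ 0 := by
    rwa [Ne, Polynomial.map_eq_zero_iff (RingHom.injective_int _)]
  have hmem : ∀ z : ℂ, z ∈ (f.map (Int.castRingHom ℂ)).roots ↔ aeval z f = 0 := by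
    intro z
    rw [mem_roots h0, IsRoot.def, eval_map, aeval_def]
    rfl
  have hcard : (f.map (Int.castRingHom ℂ)).roots.card = 3 := by
    rw [← (IsAlgClosed.splits (f.map (Int.castRingHom ℂ))).natDegree_eq_card_roots,
      natDegree_map_eq_of_injective (RingHom.injective_int _), hd]
  obtain ⟨r, hr, hr0⟩ := exists_real f hd
  obtain ⟨t, ht⟩ := Multiset.exists_cons_of_mem ((hmem r).2 hr0)
  rw [ht, Multiset.card_cons] at hcard
  obtain ⟨z1, z2, h12⟩ := Multiset.card_eq_two.1 (by omega : t.card = 2)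
  refine ⟨r, z1, z2, hr, hr0, (hmem z1).1 ?_, (hmem z2).1 ?_, ?_⟩
  · rw [ht, h12]; simp
  · rw [ht, h12]; simp
  · rw [ht, h12]; rfl

lemma log_min_le {t δ : ℝ} (hδ : 0 < δ) (hδ1 : δ ≤ 1) (h : δ ≤ t) :
    -Real.log (min 1 t) ≤ -Real.log δ := by
  have := Real.log_le_log hδ (le_min hδ1 h)
  linarith

/-- **cubic points** -/
theorem cub_l {s : ℕ} {β : Fin s → ℂ} (him : ∀ i, (β i).im ≠ 0)
    (hne : ∀ i j, i ≠ j → β i ≠ β j ∧ β i ≠ conj (β j)) (hβ : GoodQ β) (C : ℝ) (hC : 3 / 2 < C)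
    (α : Fin 0 → ℝ) : ∃ B : ℝ, ∀ (x : ℂ) (f : ℤ[X]), Irreducible f → f.natDegree = 3 →
      aeval x f = 0 → (∀ j, aeval (β j) f ≠ 0) ∧
      ((f.map (Int.castRingHom ℂ)).roots.map (gg α β)).sum ≤
        2 * Real.log (mm f) + Real.log (dK ℚ⟮x⟯) + 2 * C * Real.log (1 + Real.log (mm f)) + B := by
  classical
  obtain ⟨n, hn⟩ := exists_nat_one_div_lt (sub_pos.2 hC)
  choose c hc hcub using hβ n
  obtain ⟨c0, hc0, hc0'⟩ := exists_pos_le c hc
  set c1 : ℝ := min c0 1 with hc1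
  have hc10 : 0 < c1 := lt_min hc0 one_pos
  have hc11 : c1 ≤ 1 := min_le_right _ _
  -- the separation of the points of `D`
  have hWne : ∀ p q : Fin s × Bool, p ≠ q → WW β p ≠ WW β q := by
    rintro ⟨i, a⟩ ⟨j, b⟩ hpq h
    have hconj : ∀ i, β i ≠ conj (β i) := by
      intro i h
      exact him i (Complex.conj_eq_iff_im.1 h.symm)
    cases a <;> cases b <;> simp only [WW, if_true, if_false, Bool.false_eq_true] at h
    · have h' : β i = β j := (starRingEnd ℂ).injective h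
      by_cases hij : i = j
      · exact hpq (by rw [hij])
      · exact (hne i j hij).1 h'
    · by_cases hij : i = j
      · rw [hij] at h; exact hconj j h.symm
      · exact (hne j i (Ne.symm hij)).2 h.symm
    · by_cases hij : i = j
      · rw [hij] at h; exact hconj j h
      · exact (hne i j hij).2 h
    · by_cases hij : i = j
      · exact hpq (by rw [hij])
      · exact (hne i j hij).1 h
  obtain ⟨d1, hd1, hd1'⟩ := exists_pos_le
    (fun pq : (Fin s × Bool) × (Fin s × Bool) =>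
      if pq.1 = pq.2 then (1 : ℝ) else ‖WW β pq.1 - WW β pq.2‖ / 2) (by
    intro pq
    by_cases h : pq.1 = pq.2
    · simp only [h, if_true]; exact one_pos
    · simp only [h, if_false]
      have := norm_pos_iff.2 (sub_ne_zero.2 (hWne _ _ h))
      positivity)
  obtain ⟨d2, hd2, hd2'⟩ := exists_pos_le (fun j : Fin s => |(β j).im|)
    (fun j => abs_pos.2 (him j))
  set δ : ℝ := min (min d1 d2) 1 with hδ
  have hδ0 : 0 < δ := by rw [hδ]; positivity
  have hδ1 : δ ≤ 1 := min_le_right _ _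
  have hδd1 : δ ≤ d1 := (min_le_left _ _).trans (min_le_left _ _)
  have hδd2 : δ ≤ d2 := (min_le_left _ _).trans (min_le_right _ _)
  have hlδ : 0 ≤ -Real.log δ := by
    have := Real.log_nonpos hδ0.le hδ1
    linarith
  have hlc : 0 ≤ -Real.log c1 := by
    have := Real.log_nonpos hc10.le hc11
    linarith
  set K0 : ℝ := ∑ p, Real.log (max 1 ‖WW β p‖ * (2 + ‖WW β p‖)) with hK0
  set V : ℝ := (Fintype.card (Fin s × Bool) : ℝ) * (-Real.log δ) with hV
  refine ⟨3 * (K0 + V) + 2 * (-Real.log c1), fun x f hf hd hx => ?_⟩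
  have hM1 := one_le_mm hf.ne_zero
  have hM0 : 0 < mm f := by linarith
  have hL : 0 ≤ Real.log (mm f) := Real.log_nonneg hM1
  have hLL : 0 ≤ Real.log (1 + Real.log (mm f)) := Real.log_nonneg (by linarith)
  have hD1 : (1 : ℝ) ≤ dK ℚ⟮x⟯ := by exact_mod_cast one_le_dK _
  have hlD : 0 ≤ Real.log (dK ℚ⟮x⟯) := Real.log_nonneg hD1
  set U : ℝ := -Real.log c1 + Real.log (mm f) + C * Real.log (1 + Real.log (mm f)) +
    1 / 2 * Real.log (dK ℚ⟮x⟯) with hU
  have hU0 : 0 ≤ U := by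
    have : 0 ≤ C * Real.log (1 + Real.log (mm f)) := mul_nonneg (by linarith) hLL
    rw [hU]; linarith
  -- the lower bound near the points
  have hlow : ∀ (z : ℂ), z.im ≠ 0 → aeval z f = 0 → ∀ j, z ≠ β j ∧
      -Real.log (min 1 ‖z - β j‖) ≤ U := by
    intro z hz hz0 j
    have h1 := hcub j z f hz hf hd hz0
    rw [dK_conj hf hd hz0 hx] at h1
    rw [norm_sub_rev] at h1
    have hpos : 0 < c1 * (mm f)⁻¹ * (1 + Real.log (mm f)) ^ (-(3 / 2 + 1 / ((n : ℝ) + 1))) *
      (dK ℚ⟮x⟯ : ℝ) ^ (-(1 / 2) : ℝ) := by positivity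
    have h2 : c1 * (mm f)⁻¹ * (1 + Real.log (mm f)) ^ (-(3 / 2 + 1 / ((n : ℝ) + 1))) *
      (dK ℚ⟮x⟯ : ℝ) ^ (-(1 / 2) : ℝ) ≤ ‖z - β j‖ := by
      refine le_trans ?_ h1
      have : c1 ≤ c j := (min_le_left _ _).trans (hc0' j)
      gcongr
    refine ⟨fun h => ?_, ?_⟩
    · rw [h, sub_self, norm_zero] at h2
      linarith
    · have h3 : c1 * (mm f)⁻¹ * (1 + Real.log (mm f)) ^ (-(3 / 2 + 1 / ((n : ℝ) + 1))) *
          (dK ℚ⟮x⟯ : ℝ) ^ (-(1 / 2) : ℝ) ≤ 1 := by
        have a1 : (mm f)⁻¹ ≤ 1 := inv_le_one_of_one_le₀ hM1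
        have hn0 : 0 < 1 / ((n : ℝ) + 1) := by positivity
        have a2 : (1 + Real.log (mm f)) ^ (-(3 / 2 + 1 / ((n : ℝ) + 1))) ≤ 1 :=
          Real.rpow_le_one_of_one_le_of_nonpos (by linarith) (by linarith)
        have a3 : (dK ℚ⟮x⟯ : ℝ) ^ (-(1 / 2) : ℝ) ≤ 1 :=
          Real.rpow_le_one_of_one_le_of_nonpos hD1 (by norm_num)
        exact mul_le_one₀ (mul_le_one₀ (mul_le_one₀ hc11 (by positivity) a1) (by positivity) a2)
          (by positivity) a3
      have h4 := Real.log_le_log hpos (le_min h3 h2)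
      rw [Real.log_mul (by positivity) (by positivity), Real.log_mul (by positivity)
        (by positivity), Real.log_mul (by positivity) (by positivity), Real.log_inv,
        Real.log_rpow (by positivity), Real.log_rpow (by positivity)] at h4
      have h5 : (3 / 2 + 1 / ((n : ℝ) + 1)) * Real.log (1 + Real.log (mm f)) ≤
          C * Real.log (1 + Real.log (mm f)) := by
        apply mul_le_mul_of_nonneg_right _ hLL
        linarith
      rw [hU]
      linarith
  have hlowW : ∀ (z : ℂ), z.im ≠ 0 → aeval z f = 0 → ∀ p, z ≠ WW β p ∧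
      -Real.log (min 1 ‖z - WW β p‖) ≤ U := by
    intro z hz hz0 p
    obtain ⟨j, b⟩ := p
    cases b
    · have h1 := hlow (conj z) (by rw [Complex.conj_im]; exact neg_ne_zero.2 hz)
        (by rw [aeval_conj', hz0, map_zero]) j
      have e : WW β (j, false) = conj (β j) := rfl
      rw [e]
      have e2 : ‖z - conj (β j)‖ = ‖conj z - β j‖ := by
        rw [← Complex.norm_conj, map_sub, Complex.conj_conj]
      rw [e2]
      refine ⟨fun h => h1.1 ?_, h1.2⟩
      rw [h, Complex.conj_conj]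
    · exact hlow z hz hz0 j
  -- non-real roots
  have hnr : ∀ z : ℂ, z.im ≠ 0 → aeval z f = 0 → gg α β z ≤ K0 + V + U := by
    intro z hz hz0
    refine (gg_le α β z fun p => (hlowW z hz hz0 p).1).trans ?_
    have h1 : ∑ p, -Real.log (min 1 ‖z - WW β p‖) ≤ V + U := by
      by_cases hall : ∀ p, δ ≤ ‖z - WW β p‖
      · have h2 : ∑ p, -Real.log (min 1 ‖z - WW β p‖) ≤ ∑ _p : Fin s × Bool, -Real.log δ :=
          Finset.sum_le_sum fun p _ => log_min_le hδ0 hδ1 (hall p)
        rw [Finset.sum_const, Finset.card_univ, nsmul_eq_mul] at h2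
        linarith
      · push Not at hall
        obtain ⟨p0, hp0⟩ := hall
        rw [← Finset.add_sum_erase _ _ (Finset.mem_univ p0)]
        have h2 : ∑ p ∈ Finset.univ.erase p0, -Real.log (min 1 ‖z - WW β p‖) ≤
            ∑ p ∈ Finset.univ.erase p0, -Real.log δ := by
          apply Finset.sum_le_sum
          intro p hp
          apply log_min_le hδ0 hδ1
          have hpp := Finset.ne_of_mem_erase hp
          have h3 := hd1' (p, p0)
          simp only [hpp, if_false] at h3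
          have h4 := norm_sub_le_norm_sub_add_norm_sub (WW β p) z (WW β p0)
          rw [norm_sub_rev (WW β p) z] at h4
          linarith
        have h3 : ∑ _p ∈ Finset.univ.erase p0, -Real.log δ ≤ V := by
          rw [Finset.sum_const, nsmul_eq_mul, hV]
          apply mul_le_mul_of_nonneg_right _ hlδ
          have := Finset.card_erase_le (a := p0) (s := (Finset.univ : Finset (Fin s × Bool)))
          rw [Finset.card_univ] at this
          exact_mod_cast this
        have h4 := (hlowW z hz hz0 p0).2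
        linarith
    linarith
  -- real roots
  have hre : ∀ z : ℂ, z.im = 0 → gg α β z ≤ K0 + V := by
    intro z hz
    have hd : ∀ p, δ ≤ ‖z - WW β p‖ := by
      rintro ⟨j, b⟩
      have h1 := Complex.abs_im_le_norm (z - WW β (j, b))
      have h2 : |(z - WW β (j, b)).im| = |(β j).im| := by
        rw [Complex.sub_im, hz, zero_sub, abs_neg]
        cases b
        · have e : WW β (j, false) = conj (β j) := rfl
          rw [e, Complex.conj_im, abs_neg]
        · rfl
      rw [h2] at h1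
      exact (hδd2.trans (hd2' j)).trans h1
    have hz' : ∀ p, z ≠ WW β p := by
      intro p h
      have := hd p
      rw [h, sub_self, norm_zero] at this
      linarith
    refine (gg_le α β z hz').trans ?_
    have h2 : ∑ p, -Real.log (min 1 ‖z - WW β p‖) ≤ ∑ _p : Fin s × Bool, -Real.log δ :=
      Finset.sum_le_sum fun p _ => log_min_le hδ0 hδ1 (hd p)
    rw [Finset.sum_const, Finset.card_univ, nsmul_eq_mul] at h2
    linarith
  have hany : ∀ z : ℂ, aeval z f = 0 → gg α β z ≤ K0 + V + U := by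
    intro z hz0
    by_cases hz : z.im = 0
    · have := hre z hz
      linarith
    · exact hnr z hz hz0
  refine ⟨fun j h => (hlow (β j) (him j) h j).1 rfl, ?_⟩
  obtain ⟨r, z1, z2, hr, hr0, h1, h2, hroots⟩ := exists_roots f hd
  rw [hroots]
  have hs : (Multiset.map (gg α β) {r, z1, z2}).sum = gg α β r + (gg α β z1 + gg α β z2) := by
    simp only [Multiset.insert_eq_cons, Multiset.map_cons, Multiset.map_singleton,
      Multiset.sum_cons, Multiset.sum_singleton]
  rw [hs]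
  have e1 := hre r hr
  have e2 := hany z1 h1
  have e3 := hany z2 h2
  rw [hU] at e2 e3
  linarith

end Pool.Agent.X124.CB
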